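import Mathlib

/-!
If commuting sets are small then soluble subgroups are small.
-/

set_option autoImplicit false

namespace Pool.Agent.J4.H7.RDR

open scoped commutatorElement

variable {Γ : Type*} [Group Γ]

/-- a length function with finite balls -/
structure Len (L : Γ → ℕ) : Prop where
  one : L 1 = 0
  inv : ∀ g, L g⁻¹ = L g
  mul : ∀ g h, L (g * h) ≤ L g + L h
  fin : ∀ n, {g | L g ≤ n}.Finite

/-- the elements of length at most `n` of a subgroup, as a finite set -/
noncomputable def bal {L : Γ → ℕ} (hL : Len L) (A : Subgroup Γ) (n : ℕ) : Finset Γ := by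
  classical
  exact (hL.fin n).toFinset.filter (fun g => g ∈ A)

theorem mem_bal {L : Γ → ℕ} (hL : Len L) (A : Subgroup Γ) (n : ℕ) (g : Γ) :
    g ∈ bal hL A n ↔ L g ≤ n ∧ g ∈ A := by
  classical
  simp [bal]

/-- independence of a list of commuting elements -/
def Indep : List Γ → Prop
  | [] => True
  | (x :: l) => x ∉ Subgroup.closure {y | y ∈ l} ∧ Indep l

/-- the products of the subsets of an independent list -/
theorem prods {L : Γ → ℕ} (hL : Len L) (r : ℕ) : ∀ l : List Γ, Indep l → (∀ x ∈ l, L x ≤ r) →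
    ∃ T : Finset Γ, T.card = 2 ^ l.length ∧ (∀ t ∈ T, L t ≤ r * l.length) ∧
      (∀ t ∈ T, t ∈ Subgroup.closure {y | y ∈ l}) := by
  classical
  intro l
  induction l with
  | nil =>
    intro _ _
    exact ⟨{1}, by simp, by simp [hL.one], by simp [one_mem]⟩
  | cons x l ih =>
    intro hi hr
    obtain ⟨T, hT1, hT2, hT3⟩ := ih hi.2 fun y hy => hr y (List.mem_cons_of_mem _ hy)
    have hle : Subgroup.closure {y | y ∈ l} ≤ Subgroup.closure {y | y ∈ x :: l} :=
      Subgroup.closure_mono fun y hy => List.mem_cons_of_mem _ hy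
    have hx : x ∈ Subgroup.closure {y | y ∈ x :: l} :=
      Subgroup.subset_closure (List.mem_cons_self)
    refine ⟨T ∪ T.image (fun t => x * t), ?_, ?_, ?_⟩
    · rw [Finset.card_union_of_disjoint, Finset.card_image_of_injective _ (mul_right_injective x),
        hT1, List.length_cons, pow_succ]
      · ring
      · rw [Finset.disjoint_left]
        intro t ht ht'
        obtain ⟨t', h1, h2⟩ := Finset.mem_image.1 ht'
        refine hi.1 ?_
        have : x = t * t'⁻¹ := by rw [← h2]; group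
        rw [this]
        exact mul_mem (hT3 t ht) (inv_mem (hT3 t' h1))
    · intro t ht
      rw [List.length_cons, mul_add, mul_one]
      rcases Finset.mem_union.1 ht with h | h
      · exact (hT2 t h).trans (Nat.le_add_right _ _)
      · obtain ⟨t', h1, rfl⟩ := Finset.mem_image.1 h
        refine (hL.mul _ _).trans ?_
        have := hT2 t' h1
        have := hr x (List.mem_cons_self)
        omega
    · intro t ht
      rcases Finset.mem_union.1 ht with h | h
      · exact hle (hT3 t h)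
      · obtain ⟨t', h1, rfl⟩ := Finset.mem_image.1 h
        exact mul_mem hx (hle (hT3 t' h1))

/-- an element commuting with the members of a list commutes with the closure -/
theorem comm_closure (l : List Γ) (z : Γ) (hz : ∀ x ∈ l, Commute x z) (t : Γ)
    (ht : t ∈ Subgroup.closure {y | y ∈ l}) : Commute t z := by
  have h : Subgroup.closure {y | y ∈ l} ≤ Subgroup.centralizer {z} := by
    rw [Subgroup.closure_le]
    intro x hx
    rw [SetLike.mem_coe, Subgroup.mem_centralizer_singleton_iff]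
    exact (hz x hx).eq
  have := h ht
  rw [Subgroup.mem_centralizer_singleton_iff] at this
  exact this

theorem comm_closure2 (l : List Γ) (hl : ∀ x ∈ l, ∀ y ∈ l, Commute x y) (t t' : Γ)
    (ht : t ∈ Subgroup.closure {y | y ∈ l}) (ht' : t' ∈ Subgroup.closure {y | y ∈ l}) :
    Commute t t' := by
  refine comm_closure l t' (fun x hx => ?_) t ht
  exact (comm_closure l x (fun y hy => hl y hy x hx) t' ht').symm

/-- one more commuting element -/
theorem step {L : Γ → ℕ} (hL : Len L) (A : Subgroup Γ) (n : ℕ) (P Q : ℕ)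
    (hP : (bal hL ⁅A, A⁆ (6 * n)).card ≤ P)
    (hQ : ∀ E : Finset Γ, (∀ x ∈ E, ∀ y ∈ E, Commute x y) → (∀ x ∈ E, L x ≤ 2 * n) → E.card ≤ Q)
    (l : List Γ) (hlA : ∀ x ∈ l, x ∈ A ∧ L x ≤ 2 * n)
    (hlen : P ^ l.length * Q < (bal hL A n).card) :
    ∃ z ∈ A, L z ≤ 2 * n ∧ (∀ x ∈ l, Commute x z) ∧ z ∉ Subgroup.closure {y | y ∈ l} := by
  classical
  set D := bal hL ⁅A, A⁆ (6 * n) with hD
  set Φ : Γ → (Fin l.length → Γ) := fun y i => ⁅l.get i, y⁆ with hΦ
  have hmaps : ∀ y ∈ bal hL A n, Φ y ∈ Fintype.piFinset (fun _ : Fin l.length => D) := by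
    intro y hy
    rw [mem_bal] at hy
    rw [Fintype.mem_piFinset]
    intro i
    have hi := hlA (l.get i) (List.get_mem _ _)
    rw [hD, mem_bal]
    refine ⟨?_, Subgroup.commutator_mem_commutator hi.1 hy.2⟩
    simp only [hΦ, commutatorElement_def]
    have h1 := hL.mul (l.get i * y * (l.get i)⁻¹) y⁻¹
    have h2 := hL.mul (l.get i * y) (l.get i)⁻¹
    have h3 := hL.mul (l.get i) y
    rw [hL.inv] at h1 h2
    have h4 := hi.2
    have h5 := hy.1
    omega
  have hcard : (Fintype.piFinset (fun _ : Fin l.length => D)).card * Q < (bal hL A n).card := by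
    refine lt_of_le_of_lt ?_ hlen
    rw [Fintype.card_piFinset_const]
    exact Nat.mul_le_mul_right _ (Nat.pow_le_pow_left hP _)
  obtain ⟨w, _, hw⟩ := Finset.exists_lt_card_fiber_of_mul_lt_card_of_maps_to hmaps hcard
  set S := {y ∈ bal hL A n | Φ y = w} with hS
  have hne : S.Nonempty := Finset.card_pos.1 (lt_of_le_of_lt (Nat.zero_le _) hw)
  obtain ⟨y₀, hy₀⟩ := hne
  have hy₀' := Finset.mem_filter.1 hy₀
  have hy₀'' := (mem_bal hL A n y₀).1 hy₀'.1
  set Z := S.image (fun y => y₀⁻¹ * y) with hZ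
  have hZc : Z.card = S.card := Finset.card_image_of_injective _ (mul_right_injective _)
  have hZp : ∀ z ∈ Z, z ∈ A ∧ L z ≤ 2 * n ∧ ∀ x ∈ l, Commute x z := by
    intro z hz
    obtain ⟨y, hy, rfl⟩ := Finset.mem_image.1 hz
    have hy' := Finset.mem_filter.1 hy
    have hy'' := (mem_bal hL A n y).1 hy'.1
    refine ⟨mul_mem (inv_mem hy₀''.2) hy''.2, ?_, ?_⟩
    · have := hL.mul y₀⁻¹ y
      rw [hL.inv] at this
      have h1 := hy₀''.1
      have h2 := hy''.1
      omega
    · intro x hx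
      obtain ⟨i, hi⟩ := List.get_of_mem hx
      have h1 : ⁅x, y⁆ = ⁅x, y₀⁆ := by
        have h2 := congrFun hy'.2 i
        have h3 := congrFun hy₀'.2 i
        simp only [hΦ, hi] at h2 h3
        rw [h2, h3]
      rw [commutatorElement_def, commutatorElement_def] at h1
      have h4 : y * x⁻¹ * y⁻¹ = y₀ * x⁻¹ * y₀⁻¹ := by
        have h5 := congrArg (fun g => x⁻¹ * g) h1
        simpa [mul_assoc] using h5
      have h6 : Commute (y₀⁻¹ * y) x⁻¹ := by
        change y₀⁻¹ * y * x⁻¹ = x⁻¹ * (y₀⁻¹ * y)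
        have h7 : y * x⁻¹ = y₀ * x⁻¹ * y₀⁻¹ * y := by rw [← h4]; group
        rw [mul_assoc, h7]
        group
      have h8 := h6.inv_right
      rw [inv_inv] at h8
      exact h8.symm
  by_contra hcon
  push Not at hcon
  have hall : ∀ z ∈ Z, z ∈ Subgroup.closure {y | y ∈ l} := fun z hz =>
    hcon z (hZp z hz).1 (hZp z hz).2.1 (hZp z hz).2.2
  have := hQ Z (fun x hx y hy => comm_closure l y (hZp y hy).2.2 x (hall x hx))
    (fun x hx => (hZp x hx).2.1)
  omega

/-- the chain -/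
theorem chain {L : Γ → ℕ} (hL : Len L) (A : Subgroup Γ) (n : ℕ) (P Q k : ℕ) (hP1 : 1 ≤ P)
    (hP : (bal hL ⁅A, A⁆ (6 * n)).card ≤ P)
    (hQ : ∀ E : Finset Γ, (∀ x ∈ E, ∀ y ∈ E, Commute x y) → (∀ x ∈ E, L x ≤ 2 * n) → E.card ≤ Q)
    (hlen : P ^ k * Q < (bal hL A n).card) : ∀ j ≤ k,
    ∃ l : List Γ, l.length = j ∧ (∀ x ∈ l, x ∈ A ∧ L x ≤ 2 * n) ∧
      (∀ x ∈ l, ∀ y ∈ l, Commute x y) ∧ Indep l := by
  intro j
  induction j with
  | zero => intro _; exact ⟨[], rfl, by simp, by simp, trivial⟩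
  | succ j ih =>
    intro hj
    obtain ⟨l, h1, h2, h3, h4⟩ := ih (by omega)
    obtain ⟨z, hz1, hz2, hz3, hz4⟩ := step hL A n P Q hP hQ l h2 (by
      refine lt_of_le_of_lt (Nat.mul_le_mul_right _ (Nat.pow_le_pow_right hP1 ?_)) hlen
      omega)
    refine ⟨z :: l, by simp [h1], ?_, ?_, ⟨hz4, h4⟩⟩
    · intro x hx
      rcases List.mem_cons.1 hx with rfl | hx
      · exact ⟨hz1, hz2⟩
      · exact h2 x hx
    · intro x hx y hy
      rcases List.mem_cons.1 hx with rfl | hx
      · rcases List.mem_cons.1 hy with rfl | hy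
        · exact Commute.refl _
        · exact (hz3 y hy).symm
      · rcases List.mem_cons.1 hy with h | hy
        · rw [h]
          exact hz3 x (by assumption)
        · exact h3 x (by assumption) y hy

/-- the bound -/
theorem bound {L : Γ → ℕ} (hL : Len L) (A : Subgroup Γ) (n : ℕ) (P Q k : ℕ) (hP1 : 1 ≤ P)
    (hP : (bal hL ⁅A, A⁆ (6 * n)).card ≤ P)
    (hQ : ∀ E : Finset Γ, (∀ x ∈ E, ∀ y ∈ E, Commute x y) → (∀ x ∈ E, L x ≤ 2 * n) → E.card ≤ Q)
    (hk : ∀ E : Finset Γ, (∀ x ∈ E, ∀ y ∈ E, Commute x y) → (∀ x ∈ E, L x ≤ 2 * n * k) →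
      E.card < 2 ^ k) :
    (bal hL A n).card ≤ P ^ k * Q := by
  by_contra hcon
  push Not at hcon
  obtain ⟨l, h1, h2, h3, h4⟩ := chain hL A n P Q k hP1 hP hQ hcon k le_rfl
  obtain ⟨T, hT1, hT2, hT3⟩ := prods hL (2 * n) l h4 fun x hx => (h2 x hx).2
  have := hk T (fun x hx y hy => comm_closure2 l h3 x y (hT3 x hx) (hT3 y hy))
    (fun x hx => by rw [← h1]; exact hT2 x hx)
  rw [hT1, h1] at this
  exact lt_irrefl _ this

end Pool.Agent.J4.H7.RDR
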