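import Mathlib

/-!
Representations with property RD are small on commuting sets.
-/

set_option autoImplicit false

namespace Pool.Agent.J4.H7.RDR

open scoped ComplexInnerProductSpace

variable {Γ : Type*} [Group Γ] {H : Type*} [NormedAddCommGroup H] [InnerProductSpace ℂ H]
  [CompleteSpace H]

/-- the operator of a group element -/
noncomputable def op (π : Γ →* unitary (H →L[ℂ] H)) (g : Γ) : H →L[ℂ] H := (π g : H →L[ℂ] H)

theorem op_mul (π : Γ →* unitary (H →L[ℂ] H)) (g h : Γ) : op π (g * h) = op π g * op π h := by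
  simp [op]

theorem op_one (π : Γ →* unitary (H →L[ℂ] H)) : op π (1 : Γ) = 1 := by
  simp [op]

theorem star_op (π : Γ →* unitary (H →L[ℂ] H)) (g : Γ) : star (op π g) = op π g⁻¹ := by
  rw [op, op, map_inv]
  rfl

theorem norm_op_le (π : Γ →* unitary (H →L[ℂ] H)) (g : Γ) : ‖op π g‖ ≤ 1 := by
  rcases subsingleton_or_nontrivial H with h | h
  · have : op π g = 0 := Subsingleton.elim _ _
    rw [this]
    simp
  · exact (CStarRing.norm_coe_unitary (π g)).le

/-- for a commuting set there are phases for which the norm of the sum is the number of terms -/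
theorem phases [Nontrivial H] (π : Γ →* unitary (H →L[ℂ] H)) (E : Finset Γ)
    (hE : ∀ g ∈ E, ∀ h ∈ E, Commute g h) :
    ∃ c : Γ → ℂ, (∀ g, ‖c g‖ = 1) ∧ (E.card : ℝ) ≤ ‖∑ g ∈ E, c g • op π g‖ := by
  classical
  induction E using Finset.induction_on with
  | empty => exact ⟨fun _ => 1, fun _ => by simp, by simp⟩
  | insert a E ha ih =>
    obtain ⟨c, hc, hn⟩ := ih fun g hg h hh =>
      hE g (Finset.mem_insert_of_mem hg) h (Finset.mem_insert_of_mem hh)
    set b : H →L[ℂ] H := ∑ g ∈ E, c g • op π g with hb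
    set b' : H →L[ℂ] H := ∑ g ∈ E, c g • op π (a⁻¹ * g) with hb'
    have hbb : b = op π a * b' := by
      rw [hb, hb', Finset.mul_sum]
      refine Finset.sum_congr rfl fun g _ => ?_
      rw [mul_smul_comm, ← op_mul, mul_inv_cancel_left]
    have hbb' : b' = op π a⁻¹ * b := by
      rw [hb, hb', Finset.mul_sum]
      refine Finset.sum_congr rfl fun g _ => ?_
      rw [mul_smul_comm, ← op_mul]
    have hcomm : ∀ g ∈ E, ∀ h ∈ E, Commute (op π (g⁻¹ * a)) (op π (a⁻¹ * h)) := by
      intro g hg h hh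
      have h1 : Commute g a := hE g (Finset.mem_insert_of_mem hg) a (Finset.mem_insert_self _ _)
      have h2 : Commute h a := hE h (Finset.mem_insert_of_mem hh) a (Finset.mem_insert_self _ _)
      have h3 : Commute g h := hE g (Finset.mem_insert_of_mem hg) h (Finset.mem_insert_of_mem hh)
      have h4 : Commute (g⁻¹ * a) (a⁻¹ * h) := by
        refine Commute.mul_left ?_ ?_
        · exact Commute.mul_right (h1.inv_left.inv_right) h3.inv_left
        · exact Commute.mul_right (Commute.refl a).inv_right h2.symm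
      change op π (g⁻¹ * a) * op π (a⁻¹ * h) = op π (a⁻¹ * h) * op π (g⁻¹ * a)
      rw [← op_mul, ← op_mul, h4.eq]
    have hnormal : IsStarNormal b' := by
      refine ⟨?_⟩
      rw [hb', star_sum]
      refine Commute.sum_left _ _ _ fun g hg => Commute.sum_right _ _ _ fun h hh => ?_
      rw [star_smul, star_op, mul_inv_rev, inv_inv]
      exact ((hcomm g hg h hh).smul_left _).smul_right _
    obtain ⟨z, hz, hzn⟩ := spectrum.exists_nnnorm_eq_spectralRadius b'
    rw [IsStarNormal.spectralRadius_eq_nnnorm b'] at hzn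
    have hzn' : ‖z‖ = ‖b'‖ := congrArg NNReal.toReal (ENNReal.coe_injective hzn)
    obtain ⟨u, hu, huz⟩ : ∃ u : ℂ, ‖u‖ = 1 ∧ ‖z + u‖ = ‖z‖ + 1 := by
      rcases eq_or_ne z 0 with rfl | h0
      · exact ⟨1, by simp, by simp⟩
      · have hp : 0 < ‖z‖ := norm_pos_iff.2 h0
        refine ⟨z / (‖z‖ : ℂ), ?_, ?_⟩
        · rw [norm_div, Complex.norm_real, norm_norm, div_self hp.ne']
        · have : z + z / (‖z‖ : ℂ) = z * ((1 + 1 / ‖z‖ : ℝ) : ℂ) := by
            push_cast
            ring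
          rw [this, norm_mul, Complex.norm_real, Real.norm_of_nonneg (by positivity)]
          field_simp
    have hmem : z + u ∈ spectrum ℂ (b' + algebraMap ℂ (H →L[ℂ] H) u) := by
      rw [add_comm b' _]
      exact spectrum.add_mem_add_iff.2 hz
    have hle := spectrum.norm_le_norm_of_mem hmem
    refine ⟨Function.update c a u, ?_, ?_⟩
    · intro g
      rcases eq_or_ne g a with rfl | hg
      · simpa using hu
      · rw [Function.update_of_ne hg]
        exact hc g
    · have hsum : ∑ g ∈ insert a E, Function.update c a u g • op π g = u • op π a + b := by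
        rw [Finset.sum_insert ha, Function.update_self, hb]
        congr 1
        refine Finset.sum_congr rfl fun g hg => ?_
        rw [Function.update_of_ne (by rintro rfl; exact ha hg)]
      have hfac : b' + algebraMap ℂ (H →L[ℂ] H) u = op π a⁻¹ * (u • op π a + b) := by
        rw [mul_add, ← hbb', mul_smul_comm, ← op_mul, inv_mul_cancel, op_one,
          Algebra.algebraMap_eq_smul_one, add_comm]
      have h5 : ‖b' + algebraMap ℂ (H →L[ℂ] H) u‖ ≤ ‖u • op π a + b‖ := by
        rw [hfac]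
        refine (norm_mul_le _ _).trans ?_
        exact mul_le_of_le_one_left (norm_nonneg _) (norm_op_le π _)
      have h6 : ‖b‖ ≤ ‖b'‖ := by
        rw [hbb]
        refine (norm_mul_le _ _).trans ?_
        exact mul_le_of_le_one_left (norm_nonneg _) (norm_op_le π _)
      rw [Finset.card_insert_of_notMem ha, hsum]
      push_cast
      linarith

/-- the norm bound of a representation with square summable coefficients -/
theorem norm_op_sum_le (π : Γ →* unitary (H →L[ℂ] H)) (E : Finset Γ) (c : Γ → ℂ)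
    (hc : ∀ g, ‖c g‖ = 1) (B : ℝ)
    (hB : ∀ v w : H, ‖v‖ = 1 → ‖w‖ = 1 → ∑ g ∈ E, ‖⟪op π g v, w⟫‖ ^ 2 ≤ B) :
    ‖∑ g ∈ E, c g • op π g‖ ≤ Real.sqrt (E.card * B) := by
  have key : ∀ v w : H, ‖v‖ = 1 → ‖w‖ = 1 →
      ‖⟪(∑ g ∈ E, c g • op π g) v, w⟫‖ ≤ Real.sqrt (E.card * B) := by
    intro v w hv hw
    have h1 : ⟪(∑ g ∈ E, c g • op π g) v, w⟫ = ∑ g ∈ E, ⟪c g • op π g v, w⟫ := by
      rw [ContinuousLinearMap.sum_apply, sum_inner]
      rfl
    have h2 : ‖⟪(∑ g ∈ E, c g • op π g) v, w⟫‖ ≤ ∑ g ∈ E, ‖⟪op π g v, w⟫‖ := by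
      rw [h1]
      refine (_root_.norm_sum_le _ _).trans (Finset.sum_le_sum fun g _ => ?_)
      rw [inner_smul_left, norm_mul, RCLike.norm_conj, hc, one_mul]
    refine h2.trans ?_
    refine Real.le_sqrt_of_sq_le ?_
    have h3 := sq_sum_le_card_mul_sum_sq (s := E) (f := fun g => ‖⟪op π g v, w⟫‖)
    refine h3.trans ?_
    exact mul_le_mul_of_nonneg_left (hB v w hv hw) (Nat.cast_nonneg _)
  have key2 : ∀ v : H, ‖v‖ = 1 → ‖(∑ g ∈ E, c g • op π g) v‖ ≤ Real.sqrt (E.card * B) := by
    intro v hv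
    set T := ∑ g ∈ E, c g • op π g
    rcases eq_or_ne (T v) 0 with h0 | h0
    · rw [h0, norm_zero]
      exact Real.sqrt_nonneg _
    · have hp : 0 < ‖T v‖ := norm_pos_iff.2 h0
      have h := key v (((‖T v‖ : ℂ)⁻¹) • T v) hv (by
        rw [norm_smul, norm_inv, Complex.norm_real, norm_norm, inv_mul_cancel₀ hp.ne'])
      rw [inner_smul_right, inner_self_eq_norm_sq_to_K, norm_mul, norm_inv, Complex.norm_real,
        norm_norm, norm_pow] at h
      have h7 : ‖((‖T v‖ : ℝ) : ℂ)‖ = ‖T v‖ := by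
        rw [Complex.norm_real, norm_norm]
      have h8 : ‖T v‖⁻¹ * ‖T v‖ ^ 2 = ‖T v‖ := by
        field_simp
      calc ‖T v‖ = ‖T v‖⁻¹ * ‖T v‖ ^ 2 := h8.symm
        _ ≤ _ := by
          refine le_trans (le_of_eq ?_) h
          congr 2
          exact h7.symm
  refine ContinuousLinearMap.opNorm_le_bound _ (Real.sqrt_nonneg _) fun v => ?_
  rcases eq_or_ne v 0 with rfl | h0
  · simp
  · have hp : 0 < ‖v‖ := norm_pos_iff.2 h0
    have h := key2 (((‖v‖ : ℂ)⁻¹) • v) (by
      rw [norm_smul, norm_inv, Complex.norm_real, norm_norm, inv_mul_cancel₀ hp.ne'])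
    rw [ContinuousLinearMap.map_smul, norm_smul, norm_inv, Complex.norm_real, norm_norm] at h
    rw [inv_mul_le_iff₀ hp] at h
    linarith

/-- a commuting set has at most `B` elements -/
theorem card_le [Nontrivial H] (π : Γ →* unitary (H →L[ℂ] H)) (E : Finset Γ)
    (hE : ∀ g ∈ E, ∀ h ∈ E, Commute g h) (B : ℝ)
    (hB : ∀ v w : H, ‖v‖ = 1 → ‖w‖ = 1 → ∑ g ∈ E, ‖⟪op π g v, w⟫‖ ^ 2 ≤ B) :
    (E.card : ℝ) ≤ B := by
  obtain ⟨c, hc, h1⟩ := phases π E hE
  have h2 := norm_op_sum_le π E c hc B hB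
  have hB0 : 0 ≤ B := by
    obtain ⟨v, hv⟩ := exists_norm_eq H (zero_le_one (α := ℝ))
    have := hB v v hv hv
    exact (Finset.sum_nonneg fun _ _ => by positivity).trans this
  rcases Nat.eq_zero_or_pos E.card with h0 | h0
  · rw [h0, Nat.cast_zero]
    exact hB0
  · have hp : (0 : ℝ) < E.card := by exact_mod_cast h0
    have h3 : (E.card : ℝ) ≤ Real.sqrt (E.card * B) := h1.trans h2
    have h4 : (E.card : ℝ) ^ 2 ≤ E.card * B := by
      have h5 := pow_le_pow_left₀ hp.le h3 2
      rwa [Real.sq_sqrt (by positivity)] at h5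
    nlinarith

end Pool.Agent.J4.H7.RDR
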