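import Pool.Agent.J4.H7.RDR.Comb
import Pool.Agent.J4.H7.RDR.Op

/-!
Numerical part and induction on the derived length.
-/

set_option autoImplicit false

namespace Pool.Agent.J4.H7.RDR

variable {Γ : Type*} [Group Γ]

/-- the logarithmic scale -/
def lg (n : ℕ) : ℕ := Nat.log 2 (n + 2) + 1

theorem two_le_lg (n : ℕ) : 2 ≤ lg n := by
  have : 1 ≤ Nat.log 2 (n + 2) := Nat.le_log_of_pow_le (by norm_num) (by omega)
  unfold lg
  omega

theorem lt_two_pow_lg (n : ℕ) : n + 2 < 2 ^ lg n := Nat.lt_pow_succ_log_self (by norm_num) _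

theorem lg_six (n : ℕ) : lg (6 * n) ≤ 3 * lg n := by
  have h1 : lg (6 * n) ≤ lg n + 3 := by
    have h2 : 6 * n + 2 < 2 ^ (Nat.log 2 (n + 2) + 4) := by
      have := lt_two_pow_lg n
      unfold lg at this
      rw [show Nat.log 2 (n + 2) + 4 = (Nat.log 2 (n + 2) + 1) + 3 by ring, pow_add]
      omega
    have h3 : Nat.log 2 (6 * n + 2) < Nat.log 2 (n + 2) + 4 :=
      Nat.log_lt_of_lt_pow (by omega) h2
    unfold lg
    omega
  have := two_le_lg n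
  omega

/-- the choice of the number of steps -/
theorem choice (a : ℕ) : ∃ M : ℕ, ∀ n : ℕ,
    (2 * n * (M * lg n) + 2) ^ a < 2 ^ (M * lg n) := by
  refine ⟨16 * (a + 1) ^ 2, fun n => ?_⟩
  set M := 16 * (a + 1) ^ 2 with hM
  set ℓ := lg n with hℓ
  have h1 : n + 2 < 2 ^ ℓ := lt_two_pow_lg n
  have h2 : ℓ < 2 ^ ℓ := Nat.lt_two_pow_self
  have h0 : 2 ≤ ℓ := two_le_lg n
  have hMpos : 0 < M := by positivity
  have h3 : 2 * n * (M * ℓ) + 2 ≤ 2 * M * (2 ^ ℓ * 2 ^ ℓ) := by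
    have h4 : n * ℓ + 1 ≤ 2 ^ ℓ * 2 ^ ℓ := by
      have h5 : n * ℓ + 1 ≤ (n + 2) * ℓ := by nlinarith
      exact h5.trans (Nat.mul_le_mul h1.le h2.le)
    have h6 : 2 * n * (M * ℓ) + 2 ≤ 2 * M * (n * ℓ + 1) := by nlinarith
    exact h6.trans (Nat.mul_le_mul_left _ h4)
  have h7 : 2 * M ≤ 2 ^ (5 + 2 * a) := by
    have h8 : a + 1 ≤ 2 ^ a := Nat.lt_two_pow_self
    have h9 : (a + 1) ^ 2 ≤ (2 ^ a) ^ 2 := Nat.pow_le_pow_left h8 2
    calc 2 * M = 2 ^ 5 * (a + 1) ^ 2 := by rw [hM]; ring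
      _ ≤ 2 ^ 5 * (2 ^ a) ^ 2 := Nat.mul_le_mul_left _ h9
      _ = 2 ^ (5 + 2 * a) := by rw [← pow_mul, ← pow_add]; ring_nf
  have h10 : 2 * n * (M * ℓ) + 2 ≤ 2 ^ (5 + 2 * a + 2 * ℓ) := by
    refine h3.trans ?_
    calc 2 * M * (2 ^ ℓ * 2 ^ ℓ) ≤ 2 ^ (5 + 2 * a) * (2 ^ ℓ * 2 ^ ℓ) := Nat.mul_le_mul_right _ h7
      _ = 2 ^ (5 + 2 * a + 2 * ℓ) := by rw [← pow_add, ← pow_add]; ring_nf
  calc (2 * n * (M * ℓ) + 2) ^ a ≤ (2 ^ (5 + 2 * a + 2 * ℓ)) ^ a := Nat.pow_le_pow_left h10 a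
    _ = 2 ^ ((5 + 2 * a + 2 * ℓ) * a) := by rw [← pow_mul]
    _ < 2 ^ (M * ℓ) := by
      refine Nat.pow_lt_pow_right (by norm_num) ?_
      rw [hM]
      have h11 : (5 + 2 * a + 2 * ℓ) * a ≤ (5 + 2 * a) * a * ℓ + 2 * a * ℓ := by
        have : (5 + 2 * a) * a ≤ (5 + 2 * a) * a * ℓ := Nat.le_mul_of_pos_right _ (by omega)
        nlinarith
      have h12 : (5 + 2 * a) * a + 2 * a < 16 * (a + 1) ^ 2 := by nlinarith
      calc (5 + 2 * a + 2 * ℓ) * a ≤ (5 + 2 * a) * a * ℓ + 2 * a * ℓ := h11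
        _ = ((5 + 2 * a) * a + 2 * a) * ℓ := by ring
        _ < 16 * (a + 1) ^ 2 * ℓ := Nat.mul_lt_mul_of_pos_right h12 (by omega)

/-- the derived series inside the big group -/
theorem map_derived (A : Subgroup Γ) (d : ℕ) :
    (derivedSeries A d).map A.subtype = (fun K : Subgroup Γ => ⁅K, K⁆)^[d] A := by
  induction d with
  | zero => simp [derivedSeries_zero, ← MonoidHom.range_eq_map]
  | succ d ih =>
    rw [derivedSeries_succ, Subgroup.map_commutator, ih, Function.iterate_succ_apply']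

theorem derived_comm (A : Subgroup Γ) (d : ℕ) (h : derivedSeries A (d + 1) = ⊥) :
    derivedSeries (⁅A, A⁆ : Subgroup Γ) d = ⊥ := by
  have h1 := map_derived A (d + 1)
  rw [h, Subgroup.map_bot, Function.iterate_succ_apply] at h1
  have h2 := map_derived (⁅A, A⁆ : Subgroup Γ) d
  rw [← h1] at h2
  exact (Subgroup.map_eq_bot_iff_of_injective _ (Subgroup.subtype_injective _)).1 h2

/-- soluble subgroups -/
theorem soluble {L : Γ → ℕ} (hL : Len L) (a : ℕ)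
    (hab : ∀ n : ℕ, ∀ E : Finset Γ, (∀ x ∈ E, ∀ y ∈ E, Commute x y) → (∀ x ∈ E, L x ≤ n) →
      E.card ≤ (n + 2) ^ a) :
    ∀ d : ℕ, ∃ c : ℕ, ∀ A : Subgroup Γ, derivedSeries A d = ⊥ → ∀ n : ℕ,
      (bal hL A n).card ≤ 2 ^ (c * lg n ^ d) := by
  intro d
  obtain ⟨M, hM⟩ := choice a
  induction d with
  | zero =>
    refine ⟨0, fun A hA n => ?_⟩
    rw [derivedSeries_zero] at hA
    have h1 : (bal hL A n).card ≤ 1 := by
      refine Finset.card_le_one.2 fun x hx y hy => ?_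
      rw [mem_bal] at hx hy
      have h2 : ∀ z : A, z = 1 := fun z => by
        have : z ∈ (⊤ : Subgroup A) := Subgroup.mem_top z
        rw [hA] at this
        exact this
      have h3 := congrArg Subtype.val (h2 ⟨x, hx.2⟩)
      have h4 := congrArg Subtype.val (h2 ⟨y, hy.2⟩)
      simp only at h3 h4
      rw [h3, h4]
    simpa using h1
  | succ d ih =>
    obtain ⟨c, hc⟩ := ih
    refine ⟨c * 3 ^ d * M + 2 * a, fun A hA n => ?_⟩
    set ℓ := lg n with hℓ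
    have hℓ2 : 2 ≤ ℓ := two_le_lg n
    have h1 := hc _ (derived_comm A d hA) (6 * n)
    have h2 : (bal hL ⁅A, A⁆ (6 * n)).card ≤ 2 ^ (c * 3 ^ d * ℓ ^ d) := by
      refine h1.trans (Nat.pow_le_pow_right (by norm_num) ?_)
      have h3 : lg (6 * n) ^ d ≤ (3 * ℓ) ^ d := Nat.pow_le_pow_left (lg_six n) d
      calc c * lg (6 * n) ^ d ≤ c * (3 * ℓ) ^ d := Nat.mul_le_mul_left _ h3
        _ = c * 3 ^ d * ℓ ^ d := by rw [mul_pow]; ring
    have h4 := bound hL A n (2 ^ (c * 3 ^ d * ℓ ^ d)) ((2 * n + 2) ^ a) (M * ℓ)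
      Nat.one_le_two_pow h2 (fun E hE hEn => hab (2 * n) E hE hEn)
      (fun E hE hEn => (hab _ E hE hEn).trans_lt (by simpa [mul_assoc] using hM n))
    refine h4.trans ?_
    have h5 : (2 * n + 2) ^ a ≤ 2 ^ (2 * a * ℓ ^ (d + 1)) := by
      have h6 : 2 * n + 2 ≤ 2 ^ (ℓ + 1) := by
        have h8 : n + 2 < 2 ^ ℓ := lt_two_pow_lg n
        rw [pow_succ]
        omega
      calc (2 * n + 2) ^ a ≤ (2 ^ (ℓ + 1)) ^ a := Nat.pow_le_pow_left h6 a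
        _ = 2 ^ ((ℓ + 1) * a) := by rw [← pow_mul]
        _ ≤ 2 ^ (2 * a * ℓ ^ (d + 1)) := by
          refine Nat.pow_le_pow_right (by norm_num) ?_
          have h7 : ℓ ≤ ℓ ^ (d + 1) := Nat.le_self_pow (Nat.succ_ne_zero d) ℓ
          calc (ℓ + 1) * a ≤ (2 * ℓ) * a := Nat.mul_le_mul_right _ (by omega)
            _ = 2 * a * ℓ := by ring
            _ ≤ 2 * a * ℓ ^ (d + 1) := Nat.mul_le_mul_left _ h7
    calc (2 ^ (c * 3 ^ d * ℓ ^ d)) ^ (M * ℓ) * (2 * n + 2) ^ a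
        ≤ (2 ^ (c * 3 ^ d * ℓ ^ d)) ^ (M * ℓ) * 2 ^ (2 * a * ℓ ^ (d + 1)) :=
          Nat.mul_le_mul_left _ h5
      _ = 2 ^ ((c * 3 ^ d * M + 2 * a) * ℓ ^ (d + 1)) := by
          rw [← pow_mul, ← pow_add]
          congr 1
          ring

end Pool.Agent.J4.H7.RDR
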