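import Pool.Agent.J4.H7.RDR.Pos

/-!
Domination of the regular representation when the negative part of a coefficient is small.
-/

set_option autoImplicit false

namespace Pool.Agent.J4.H7.RDR

open scoped ComplexInnerProductSpace

variable {G : Type*} [Group G] {H : Type*} [NormedAddCommGroup H]
  [InnerProductSpace ℂ H] [CompleteSpace H]

/-- right translation -/
noncomputable def rt (k : G) : (G →₀ ℝ) →ₗ[ℝ] (G →₀ ℝ) := Finsupp.lmapDomain ℝ ℝ (fun h => h * k)

theorem rt_single (k : G) : rt k (Finsupp.single 1 1) = Finsupp.single k 1 := by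
  change Finsupp.mapDomain (fun h => h * k) (Finsupp.single 1 1) = _
  rw [Finsupp.mapDomain_single, one_mul]

theorem rt_tr (k g : G) (x : G →₀ ℝ) : tr g (rt k x) = rt k (tr g x) := by
  change Finsupp.mapDomain (fun h => g * h) (Finsupp.mapDomain (fun h => h * k) x) =
    Finsupp.mapDomain (fun h => h * k) (Finsupp.mapDomain (fun h => g * h) x)
  rw [← Finsupp.mapDomain_comp, ← Finsupp.mapDomain_comp]
  congr 1
  funext h
  exact (mul_assoc g h k).symm

theorem ip_rt (k : G) (y x : G →₀ ℝ) : ip (rt k y) (rt k x) = ip y x := by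
  unfold ip
  change (Finsupp.mapDomain (fun h => h * k) y).sum _ = _
  rw [Finsupp.sum_mapDomain_index (fun g => zero_mul _) (fun g a b => add_mul _ _ _)]
  refine Finsupp.sum_congr fun a _ => ?_
  congr 1
  exact Finsupp.mapDomain_apply (mul_left_injective k) x a

/-- `A = λ(f)* λ(f)` -/
noncomputable def AA (E : Finset G) (f : G → ℝ) (y : G →₀ ℝ) : G →₀ ℝ := cv' E f (cv E f y)

theorem cv_rt (E : Finset G) (f : G → ℝ) (k : G) (x : G →₀ ℝ) :
    cv E f (rt k x) = rt k (cv E f x) := by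
  simp only [cv, LinearMap.sum_apply, LinearMap.smul_apply, rt_tr, map_sum, map_smul]

theorem cv'_rt (E : Finset G) (f : G → ℝ) (k : G) (x : G →₀ ℝ) :
    cv' E f (rt k x) = rt k (cv' E f x) := by
  simp only [cv', LinearMap.sum_apply, LinearMap.smul_apply, rt_tr, map_sum, map_smul]

theorem AA_rt (E : Finset G) (f : G → ℝ) (k : G) (m : ℕ) (x : G →₀ ℝ) :
    (AA E f)^[m] (rt k x) = rt k ((AA E f)^[m] x) := by
  induction m with
  | zero => rfl
  | succ m ih =>
    rw [Function.iterate_succ_apply', ih, Function.iterate_succ_apply', AA, cv_rt, cv'_rt]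
    rfl

theorem AA_sym (E : Finset G) (f : G → ℝ) (m : ℕ) (y z : G →₀ ℝ) :
    ip ((AA E f)^[m] y) z = ip y ((AA E f)^[m] z) := by
  have hA : ∀ y z, ip (AA E f y) z = ip y (AA E f z) := by
    intro y z
    change ip (cv' E f (cv E f y)) z = ip y (cv' E f (cv E f z))
    rw [ip_comm, ← ip_cv, ip_comm, ip_cv]
  induction m generalizing y z with
  | zero => rfl
  | succ m ih => rw [Function.iterate_succ_apply', hA, ih, ← Function.iterate_succ_apply]

theorem AA_nonneg (E : Finset G) (f : G → ℝ) (hf : ∀ g, 0 ≤ f g) (m : ℕ) (x : G →₀ ℝ)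
    (hx : ∀ g, 0 ≤ x g) : ∀ g, 0 ≤ (AA E f)^[m] x g := by
  induction m with
  | zero => exact hx
  | succ m ih =>
    rw [Function.iterate_succ_apply']
    exact cv'_nonneg E f hf _ (cv_nonneg E f hf _ ih)

/-- the powers as a linear map -/
noncomputable def AL (E : Finset G) (f : G → ℝ) (m : ℕ) : (G →₀ ℝ) →ₗ[ℝ] (G →₀ ℝ) :=
  (cv' E f ∘ₗ cv E f) ^ m

theorem AL_apply (E : Finset G) (f : G → ℝ) (m : ℕ) (x : G →₀ ℝ) :
    AL E f m x = (AA E f)^[m] x := by
  rw [AL, Module.End.pow_apply]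
  rfl

/-- the diagonal entry of an even power dominates -/
theorem entry_le (E : Finset G) (f : G → ℝ) (m : ℕ) (h k : G) :
    ip ((AA E f)^[m] (Finsupp.single h 1)) ((AA E f)^[m] (Finsupp.single k 1)) ≤
      ip ((AA E f)^[m] (Finsupp.single 1 1)) ((AA E f)^[m] (Finsupp.single 1 1)) := by
  have h1 := ip_cs ((AA E f)^[m] (Finsupp.single h 1)) ((AA E f)^[m] (Finsupp.single k 1))
  have h2 : ∀ h : G, ip ((AA E f)^[m] (Finsupp.single h 1)) ((AA E f)^[m] (Finsupp.single h 1)) =
      ip ((AA E f)^[m] (Finsupp.single 1 1)) ((AA E f)^[m] (Finsupp.single 1 1)) := by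
    intro h
    rw [← rt_single h, AA_rt, ip_rt]
  rw [h2 h, h2 k, ← sq] at h1
  exact (abs_le_of_sq_le_sq' h1 (ip_self_nonneg _)).2

theorem ip_le_sum (E : Finset G) (f : G → ℝ) (m : ℕ) (x : G →₀ ℝ) (hx : ∀ g, 0 ≤ x g) :
    ip ((AA E f)^[m] x) ((AA E f)^[m] x) ≤ (∑ h ∈ x.support, x h) ^ 2 *
      ip ((AA E f)^[m] (Finsupp.single 1 1)) ((AA E f)^[m] (Finsupp.single 1 1)) := by
  have h1 : (AA E f)^[m] x = ∑ h ∈ x.support, x h • (AA E f)^[m] (Finsupp.single h 1) := by
    conv_lhs => rw [← Finsupp.sum_single x, Finsupp.sum, ← AL_apply, map_sum]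
    refine Finset.sum_congr rfl fun h _ => ?_
    rw [← AL_apply, ← map_smul, Finsupp.smul_single, smul_eq_mul, mul_one]
  have h2 : ∀ z, ip ((AA E f)^[m] x) z = ∑ h ∈ x.support, x h *
      ip ((AA E f)^[m] (Finsupp.single h 1)) z := by
    intro z
    rw [h1]
    change ipl z _ = _
    rw [map_sum]
    refine Finset.sum_congr rfl fun h _ => ?_
    rw [map_smul]
    rfl
  rw [h2, sq, mul_assoc, Finset.sum_mul]
  refine Finset.sum_le_sum fun h _ => mul_le_mul_of_nonneg_left ?_ (hx h)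
  rw [ip_comm, h2, Finset.sum_mul]
  refine Finset.sum_le_sum fun k _ => mul_le_mul_of_nonneg_left ?_ (hx k)
  exact entry_le E f m k h

/-- domination if the negative part of a coefficient has sum less than one -/
theorem dom2 (π : G →* unitary (H →L[ℂ] H)) (v : H) (hv : ‖v‖ = 1) (η : ℝ) (hη : η < 1)
    (hpos : ∀ F : Finset G, ∑ g ∈ F, max 0 (-(⟪op π g v, v⟫).re) ≤ η) (E : Finset G) (f : G → ℝ)
    (hf : ∀ g, 0 ≤ f g) (x : G →₀ ℝ) (hx : ∀ g, 0 ≤ x g) :
    ip (cv E f x) (cv E f x) ≤ ‖PP π E f‖ ^ 2 * ip x x := by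
  classical
  let Q : H →L[ℂ] H := star (PP π E f) * PP π E f
  have hQ : ‖Q‖ ≤ ‖PP π E f‖ ^ 2 := by
    refine (norm_mul_le _ _).trans (le_of_eq ?_)
    rw [norm_star, sq]
  have hAx : ∀ m, om π v ((AA E f)^[m] (Finsupp.single 1 1)) =
      (Q ^ m) (om π v (Finsupp.single 1 1)) := by
    intro m
    induction m with
    | zero => rfl
    | succ m ih =>
      rw [Function.iterate_succ_apply']
      change om π v (cv' E f (cv E f ((AA E f)^[m] _))) = _
      rw [om_cv', om_cv, ih, pow_succ']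
      rfl
  have hom : om π v (Finsupp.single 1 1) = v := by
    rw [om, Finsupp.linearCombination_single, one_smul, op_one]
    rfl
  set q := ‖PP π E f‖ ^ 2 with hq
  have hq0 : 0 ≤ q := sq_nonneg _
  -- the diagonal entries
  have ha : ∀ m, ip ((AA E f)^[m] (Finsupp.single 1 1)) ((AA E f)^[m] (Finsupp.single 1 1)) ≤
      q ^ (2 * m) / (1 - η) := by
    intro m
    set a := ip ((AA E f)^[m] (Finsupp.single 1 1)) ((AA E f)^[m] (Finsupp.single 1 1)) with ha
    set y := (AA E f)^[2 * m] (Finsupp.single 1 1) with hy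
    have hy0 : ∀ g, 0 ≤ y g := AA_nonneg E f hf _ _ (fun g => by
      rw [Finsupp.single_apply]
      split_ifs <;> norm_num)
    have hyg : ∀ g, y g = ip ((AA E f)^[m] (Finsupp.single 1 1))
        ((AA E f)^[m] (Finsupp.single g 1)) := by
      intro g
      rw [← AA_sym, ← Function.iterate_add_apply, ← two_mul, ip_comm]
      change y g = (Finsupp.single g (1 : ℝ)).sum fun g a => a * y g
      rw [Finsupp.sum_single_index (zero_mul _), one_mul]
    have hy1 : y 1 = a := hyg 1
    have hyle : ∀ g, y g ≤ a := fun g => by rw [hyg]; exact entry_le E f m 1 g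
    have h1 : (⟪om π v y, v⟫).re ≤ q ^ (2 * m) := by
      rw [hAx, hom]
      calc (⟪(Q ^ (2 * m)) v, v⟫).re ≤ ‖⟪(Q ^ (2 * m)) v, v⟫‖ := Complex.re_le_norm _
        _ ≤ ‖(Q ^ (2 * m)) v‖ * ‖v‖ := norm_inner_le_norm _ _
        _ ≤ (‖Q ^ (2 * m)‖ * ‖v‖) * ‖v‖ :=
            mul_le_mul_of_nonneg_right ((Q ^ (2 * m)).le_opNorm _) (norm_nonneg _)
        _ = ‖Q ^ (2 * m)‖ := by rw [hv, mul_one, mul_one]
        _ ≤ q ^ (2 * m) := by
            rcases Nat.eq_zero_or_pos (2 * m) with h0 | hm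
            · rw [h0, pow_zero, pow_zero]
              exact ContinuousLinearMap.norm_id_le
            · exact (norm_pow_le' _ hm).trans (pow_le_pow_left₀ (norm_nonneg _) hQ _)
    have h2 : (⟪om π v y, v⟫).re = ∑ g ∈ y.support, y g * (⟪op π g v, v⟫).re := by
      rw [om, Finsupp.linearCombination_apply, Finsupp.sum, sum_inner, Complex.re_sum]
      refine Finset.sum_congr rfl fun g _ => ?_
      rw [← Complex.coe_smul, inner_smul_left, Complex.conj_ofReal, Complex.re_ofReal_mul]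
    have h3 : ∑ g ∈ y.support, y g * (⟪op π g v, v⟫).re =
        ∑ g ∈ insert 1 y.support, y g * (⟪op π g v, v⟫).re := by
      refine Finset.sum_subset (Finset.subset_insert _ _) fun g _ hg => ?_
      have : y g = 0 := by simpa using hg
      rw [this, zero_mul]
    have h4 : ∑ g ∈ insert 1 y.support, y g * (⟪op π g v, v⟫).re =
        a + ∑ g ∈ (insert 1 y.support).erase 1, y g * (⟪op π g v, v⟫).re := by
      rw [← Finset.add_sum_erase _ _ (Finset.mem_insert_self 1 _), hy1, op_one]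
      have : (⟪(1 : H →L[ℂ] H) v, v⟫).re = 1 := by
        change (⟪v, v⟫).re = 1
        rw [inner_self_eq_norm_sq_to_K, hv]
        simp
      rw [this, mul_one]
    have ha0 : 0 ≤ a := ip_self_nonneg _
    have h5 : -(a * η) ≤ ∑ g ∈ (insert 1 y.support).erase 1, y g * (⟪op π g v, v⟫).re := by
      have h6 : -(a * ∑ g ∈ (insert 1 y.support).erase 1, max 0 (-(⟪op π g v, v⟫).re)) ≤
          ∑ g ∈ (insert 1 y.support).erase 1, y g * (⟪op π g v, v⟫).re := by
        rw [Finset.mul_sum, ← Finset.sum_neg_distrib]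
        refine Finset.sum_le_sum fun g _ => ?_
        have h7 : 0 ≤ max 0 (-(⟪op π g v, v⟫).re) := le_max_left _ _
        have h8 : -(⟪op π g v, v⟫).re ≤ max 0 (-(⟪op π g v, v⟫).re) := le_max_right _ _
        have h9 := mul_le_mul_of_nonneg_right (hyle g) h7
        have h10 := mul_le_mul_of_nonneg_left h8 (hy0 g)
        linarith
      have h11 := mul_le_mul_of_nonneg_left (hpos ((insert 1 y.support).erase 1)) ha0
      linarith
    rw [le_div_iff₀ (by linarith)]
    rw [h2, h3, h4] at h1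
    linarith
  set S := ∑ h ∈ x.support, x h with hS
  have h1 : ip (cv E f x) (cv E f x) = ip ((AA E f)^[1] x) x := by
    rw [ip_cv, ip_comm]
    rfl
  have hsq : ∀ j : ℕ, ip ((AA E f)^[2 ^ (j + 1)] x) x =
      ip ((AA E f)^[2 ^ j] x) ((AA E f)^[2 ^ j] x) := by
    intro j
    rw [pow_succ, mul_two, Function.iterate_add_apply, AA_sym]
  rw [h1]
  rcases (ip_self_nonneg x).eq_or_lt with h0 | h0
  · have h2 := ip_cs ((AA E f)^[1] x) x
    rw [← h0, mul_zero] at h2
    have h3 : ip ((AA E f)^[1] x) x = 0 := by nlinarith [sq_nonneg (ip ((AA E f)^[1] x) x)]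
    rw [h3, ← h0, mul_zero]
  · set u0 := ip x x with hu0
    have hdbl : ∀ j : ℕ, (ip ((AA E f)^[1] x) x / u0) ^ (2 ^ j) ≤
        ip ((AA E f)^[2 ^ j] x) x / u0 := by
      intro j
      induction j with
      | zero => simp
      | succ j ih =>
        have h3 := ip_cs ((AA E f)^[2 ^ j] x) x
        rw [← hsq] at h3
        have h4 : 0 ≤ (ip ((AA E f)^[1] x) x / u0) ^ (2 ^ j) := by
          have h5 : 0 ≤ ip ((AA E f)^[1] x) x := by rw [← h1]; exact ip_self_nonneg _
          positivity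
        calc (ip ((AA E f)^[1] x) x / u0) ^ (2 ^ (j + 1)) =
              ((ip ((AA E f)^[1] x) x / u0) ^ (2 ^ j)) ^ 2 := by rw [← pow_mul, pow_succ]
          _ ≤ (ip ((AA E f)^[2 ^ j] x) x / u0) ^ 2 := pow_le_pow_left₀ h4 ih 2
          _ = ip ((AA E f)^[2 ^ j] x) x ^ 2 / (u0 * u0) := by rw [div_pow, sq u0]
          _ ≤ (ip ((AA E f)^[2 ^ (j + 1)] x) x * u0) / (u0 * u0) :=
              div_le_div_of_nonneg_right h3 (by positivity)
          _ = ip ((AA E f)^[2 ^ (j + 1)] x) x / u0 := by field_simp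
    set r := ip ((AA E f)^[1] x) x / u0 with hr
    have hr' : ip ((AA E f)^[1] x) x = r * u0 := by rw [hr]; field_simp
    rw [hr']
    refine mul_le_mul_of_nonneg_right ?_ h0.le
    by_contra hlt
    push Not at hlt
    set M := S ^ 2 / (1 - η) / u0 with hM
    have hb : ∀ j : ℕ, r ^ (2 ^ (j + 1)) ≤ M * q ^ (2 ^ (j + 1)) := by
      intro j
      refine (hdbl (j + 1)).trans ?_
      rw [hM, div_mul_eq_mul_div]
      refine div_le_div_of_nonneg_right ?_ h0.le
      rw [hsq]
      refine (ip_le_sum E f (2 ^ j) x hx).trans ?_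
      have h6 := mul_le_mul_of_nonneg_left (ha (2 ^ j)) (sq_nonneg S)
      refine h6.trans (le_of_eq ?_)
      rw [pow_succ 2 j, mul_comm 2 (2 ^ j)]
      ring
    rcases hq0.eq_or_lt with hz | hz
    · have h5 := hb 0
      rw [← hz] at h5 hlt
      norm_num at h5
      nlinarith
    · have h6 : 1 < r / q := (one_lt_div hz).2 hlt
      obtain ⟨n, hn⟩ := pow_unbounded_of_one_lt M h6
      have h7 : (r / q) ^ n ≤ (r / q) ^ (2 ^ (n + 1)) :=
        pow_le_pow_right₀ h6.le ((Nat.lt_two_pow_self.le).trans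
          (Nat.pow_le_pow_right (by norm_num) (Nat.le_succ n)))
      have h8 := hb n
      have h9 : r ^ (2 ^ (n + 1)) / q ^ (2 ^ (n + 1)) ≤ M := (div_le_iff₀ (by positivity)).2 h8
      rw [← div_pow] at h9
      linarith

end Pool.Agent.J4.H7.RDR
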