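import Pool.Agent.J4.H7.RDR.Schur

/-!
A representation with a vector with nonnegative coefficients dominates the regular representation
on nonnegative functions.
-/

set_option autoImplicit false

namespace Pool.Agent.J4.H7.RDR

open scoped ComplexInnerProductSpace

variable {G : Type*} [Group G] {H : Type*} [NormedAddCommGroup H]
  [InnerProductSpace ℂ H] [CompleteSpace H]

/-- left translation -/
noncomputable def tr (g : G) : (G →₀ ℝ) →ₗ[ℝ] (G →₀ ℝ) := Finsupp.lmapDomain ℝ ℝ (fun h => g * h)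

theorem tr_apply (g : G) (x : G →₀ ℝ) (a : G) : tr g x a = x (g⁻¹ * a) := by
  have h1 : (fun h => g * h) (g⁻¹ * a) = a := by simp
  change Finsupp.mapDomain (fun h => g * h) x a = x (g⁻¹ * a)
  conv_lhs => rw [← h1]
  exact Finsupp.mapDomain_apply (mul_right_injective g) x (g⁻¹ * a)

/-- the inner product -/
noncomputable def ip (y x : G →₀ ℝ) : ℝ := y.sum fun g a => a * x g

theorem ip_eq (y x : G →₀ ℝ) (s : Finset G) (hs : y.support ⊆ s) : ip y x = ∑ g ∈ s, y g * x g :=
  Finsupp.sum_of_support_subset y hs _ (fun g _ => zero_mul _)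

theorem ip_comm (y x : G →₀ ℝ) : ip y x = ip x y := by
  classical
  rw [ip_eq y x (y.support ∪ x.support) Finset.subset_union_left,
    ip_eq x y (y.support ∪ x.support) Finset.subset_union_right]
  exact Finset.sum_congr rfl fun g _ => mul_comm _ _

theorem ip_cs (y x : G →₀ ℝ) : ip y x ^ 2 ≤ ip y y * ip x x := by
  classical
  rw [ip_eq y x (y.support ∪ x.support) Finset.subset_union_left,
    ip_eq y y (y.support ∪ x.support) Finset.subset_union_left,
    ip_eq x x (y.support ∪ x.support) Finset.subset_union_right]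
  have := Finset.sum_mul_sq_le_sq_mul_sq (y.support ∪ x.support) (fun g => y g) (fun g => x g)
  simpa only [sq] using this

theorem ip_self_nonneg (x : G →₀ ℝ) : 0 ≤ ip x x := by
  rw [ip_eq x x x.support (Finset.Subset.refl _)]
  exact Finset.sum_nonneg fun g _ => mul_self_nonneg _

theorem ip_add_left (y y' x : G →₀ ℝ) : ip (y + y') x = ip y x + ip y' x := by
  classical
  exact Finsupp.sum_add_index' (fun g => zero_mul _) (fun g a b => add_mul _ _ _)

theorem ip_smul_left (c : ℝ) (y x : G →₀ ℝ) : ip (c • y) x = c * ip y x := by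
  rw [ip, Finsupp.sum_smul_index (fun g => zero_mul _), ip, Finsupp.sum, Finsupp.sum,
    Finset.mul_sum]
  exact Finset.sum_congr rfl fun g _ => mul_assoc _ _ _

/-- linear in the first variable -/
noncomputable def ipl (x : G →₀ ℝ) : (G →₀ ℝ) →ₗ[ℝ] ℝ where
  toFun y := ip y x
  map_add' y y' := ip_add_left y y' x
  map_smul' c y := ip_smul_left c y x

theorem ip_tr (g : G) (y x : G →₀ ℝ) : ip (tr g y) x = ip y (tr g⁻¹ x) := by
  unfold ip
  change (Finsupp.mapDomain (fun h => g * h) y).sum _ = _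
  rw [Finsupp.sum_mapDomain_index (fun g => zero_mul _) (fun g a b => add_mul _ _ _)]
  refine Finsupp.sum_congr fun a _ => ?_
  rw [tr_apply, inv_inv]

/-- convolution with `f` on `E` -/
noncomputable def cv (E : Finset G) (f : G → ℝ) : (G →₀ ℝ) →ₗ[ℝ] (G →₀ ℝ) := ∑ g ∈ E, f g • tr g

/-- and its adjoint -/
noncomputable def cv' (E : Finset G) (f : G → ℝ) : (G →₀ ℝ) →ₗ[ℝ] (G →₀ ℝ) :=
  ∑ g ∈ E, f g • tr g⁻¹

theorem cv_apply (E : Finset G) (f : G → ℝ) (x : G →₀ ℝ) (a : G) :
    cv E f x a = ∑ g ∈ E, f g * x (g⁻¹ * a) := by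
  simp only [cv, LinearMap.sum_apply, LinearMap.smul_apply, Finsupp.finset_sum_apply,
    Finsupp.smul_apply, tr_apply, smul_eq_mul]

theorem ip_cv (E : Finset G) (f : G → ℝ) (y x : G →₀ ℝ) : ip (cv E f y) x = ip y (cv' E f x) := by
  have h1 : ip (cv E f y) x = ∑ g ∈ E, f g * ip (tr g y) x := by
    change ipl x (cv E f y) = _
    simp only [cv, LinearMap.sum_apply, LinearMap.smul_apply, map_sum, map_smul, smul_eq_mul]
    rfl
  have h2 : ip y (cv' E f x) = ∑ g ∈ E, f g * ip (tr g⁻¹ x) y := by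
    rw [ip_comm]
    change ipl y (cv' E f x) = _
    simp only [cv', LinearMap.sum_apply, LinearMap.smul_apply, map_sum, map_smul, smul_eq_mul]
    rfl
  rw [h1, h2]
  refine Finset.sum_congr rfl fun g _ => ?_
  rw [ip_tr, ip_comm]

/-- the orbit map -/
noncomputable def om (π : G →* unitary (H →L[ℂ] H)) (v : H) : (G →₀ ℝ) →ₗ[ℝ] H :=
  Finsupp.linearCombination ℝ (fun g => op π g v)

theorem om_tr (π : G →* unitary (H →L[ℂ] H)) (v : H) (g : G) (x : G →₀ ℝ) :
    om π v (tr g x) = op π g (om π v x) := by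
  change Finsupp.linearCombination ℝ (fun g => op π g v) (Finsupp.mapDomain (fun h => g * h) x) = _
  rw [Finsupp.linearCombination_mapDomain, om, Finsupp.linearCombination_apply,
    Finsupp.linearCombination_apply, Finsupp.sum, Finsupp.sum, map_sum]
  refine Finset.sum_congr rfl fun h _ => ?_
  rw [Function.comp_apply, op_mul]
  have h1 : op π g (x h • op π h v) = x h • op π g (op π h v) := by
    rw [← Complex.coe_smul, map_smul, Complex.coe_smul]
  rw [h1]
  rfl

theorem om_pos (π : G →* unitary (H →L[ℂ] H)) (v : H) (hv : ‖v‖ = 1)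
    (hpos : ∀ g, 0 ≤ (⟪op π g v, v⟫).re) (y x : G →₀ ℝ) (hy : ∀ g, 0 ≤ y g) (hx : ∀ g, 0 ≤ x g) :
    ip y x ≤ (⟪om π v y, om π v x⟫).re := by
  classical
  have h0 : ∀ g h, ⟪op π g v, op π h v⟫ = ⟪op π (h⁻¹ * g) v, v⟫ := by
    intro g h
    have h1 := inner_op_op π h (op π (h⁻¹ * g) v) v
    rw [← h1]
    have h2 : op π g = op π h * op π (h⁻¹ * g) := by rw [← op_mul]; simp
    rw [h2]
    rfl
  have h1 : (⟪om π v y, om π v x⟫).re =
      ∑ g ∈ y.support, ∑ h ∈ x.support, y g * x h * (⟪op π g v, op π h v⟫).re := by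
    rw [om, Finsupp.linearCombination_apply, Finsupp.linearCombination_apply, Finsupp.sum,
      Finsupp.sum, sum_inner, Complex.re_sum]
    refine Finset.sum_congr rfl fun g _ => ?_
    rw [inner_sum, Complex.re_sum]
    refine Finset.sum_congr rfl fun h _ => ?_
    rw [← Complex.coe_smul, ← Complex.coe_smul, inner_smul_left, inner_smul_right, ← mul_assoc,
      Complex.conj_ofReal, ← Complex.ofReal_mul, Complex.re_ofReal_mul]
  rw [h1, ip_eq y x y.support (Finset.Subset.refl _)]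
  refine Finset.sum_le_sum fun g _ => ?_
  have h2 : ∀ h, 0 ≤ y g * x h * (⟪op π g v, op π h v⟫).re := by
    intro h
    rw [h0]
    exact mul_nonneg (mul_nonneg (hy g) (hx h)) (hpos _)
  by_cases hg : g ∈ x.support
  · have h3 := Finset.single_le_sum (f := fun h => y g * x h * (⟪op π g v, op π h v⟫).re)
      (fun h _ => h2 h) hg
    refine le_trans (le_of_eq ?_) h3
    have h4 : (⟪op π g v, op π g v⟫).re = 1 := by
      rw [inner_op_op, inner_self_eq_norm_sq_to_K, hv]
      simp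
    simp only [h4, mul_one]
  · have h3 : x g = 0 := by simpa using hg
    rw [h3, mul_zero]
    exact Finset.sum_nonneg fun h _ => h2 h

/-- the operator of a function -/
noncomputable def PP (π : G →* unitary (H →L[ℂ] H)) (E : Finset G) (f : G → ℝ) : H →L[ℂ] H :=
  ∑ g ∈ E, (f g : ℂ) • op π g

theorem om_cv (π : G →* unitary (H →L[ℂ] H)) (v : H) (E : Finset G) (f : G → ℝ) (x : G →₀ ℝ) :
    om π v (cv E f x) = PP π E f (om π v x) := by
  simp only [cv, PP, LinearMap.sum_apply, LinearMap.smul_apply, map_sum, map_smul, om_tr,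
    ContinuousLinearMap.sum_apply, ContinuousLinearMap.smul_apply, Complex.coe_smul]

theorem om_cv' (π : G →* unitary (H →L[ℂ] H)) (v : H) (E : Finset G) (f : G → ℝ) (x : G →₀ ℝ) :
    om π v (cv' E f x) = star (PP π E f) (om π v x) := by
  have h1 : star (PP π E f) = ∑ g ∈ E, (f g : ℂ) • op π g⁻¹ := by
    rw [PP, star_sum]
    refine Finset.sum_congr rfl fun g _ => ?_
    rw [star_smul, star_op]
    simp
  rw [h1]
  simp only [cv', LinearMap.sum_apply, LinearMap.smul_apply, map_sum, map_smul, om_tr,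
    ContinuousLinearMap.sum_apply, ContinuousLinearMap.smul_apply, Complex.coe_smul]

theorem cv_nonneg (E : Finset G) (f : G → ℝ) (hf : ∀ g, 0 ≤ f g) (x : G →₀ ℝ)
    (hx : ∀ g, 0 ≤ x g) (a : G) : 0 ≤ cv E f x a := by
  rw [cv_apply]
  exact Finset.sum_nonneg fun g _ => mul_nonneg (hf g) (hx _)

theorem cv'_nonneg (E : Finset G) (f : G → ℝ) (hf : ∀ g, 0 ≤ f g) (x : G →₀ ℝ)
    (hx : ∀ g, 0 ≤ x g) (a : G) : 0 ≤ cv' E f x a := by
  simp only [cv', LinearMap.sum_apply, LinearMap.smul_apply, Finsupp.finset_sum_apply,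
    Finsupp.smul_apply, tr_apply, smul_eq_mul]
  exact Finset.sum_nonneg fun g _ => mul_nonneg (hf g) (hx _)

/-- domination -/
theorem dom (π : G →* unitary (H →L[ℂ] H)) (v : H) (hv : ‖v‖ = 1)
    (hpos : ∀ g, 0 ≤ (⟪op π g v, v⟫).re) (E : Finset G) (f : G → ℝ) (hf : ∀ g, 0 ≤ f g)
    (x : G →₀ ℝ) (hx : ∀ g, 0 ≤ x g) :
    ip (cv E f x) (cv E f x) ≤ ‖PP π E f‖ ^ 2 * ip x x := by
  let A : (G →₀ ℝ) → (G →₀ ℝ) := fun y => cv' E f (cv E f y)
  let Q : H →L[ℂ] H := star (PP π E f) * PP π E f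
  have hA : ∀ y z, ip (A y) z = ip y (A z) := by
    intro y z
    change ip (cv' E f (cv E f y)) z = ip y (cv' E f (cv E f z))
    rw [ip_comm, ← ip_cv, ip_comm, ip_cv]
  have hAm : ∀ m y z, ip (A^[m] y) z = ip y (A^[m] z) := by
    intro m
    induction m with
    | zero => intro y z; rfl
    | succ m ih =>
      intro y z
      rw [Function.iterate_succ_apply', hA, ih, ← Function.iterate_succ_apply]
  have hQ : ‖Q‖ ≤ ‖PP π E f‖ ^ 2 := by
    refine (norm_mul_le _ _).trans (le_of_eq ?_)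
    rw [norm_star, sq]
  have hAx : ∀ m, (∀ g, 0 ≤ A^[m] x g) ∧ om π v (A^[m] x) = (Q ^ m) (om π v x) := by
    intro m
    induction m with
    | zero => exact ⟨hx, rfl⟩
    | succ m ih =>
      rw [Function.iterate_succ_apply']
      refine ⟨cv'_nonneg E f hf _ (cv_nonneg E f hf _ ih.1), ?_⟩
      change om π v (cv' E f (cv E f (A^[m] x))) = _
      rw [om_cv', om_cv, ih.2, pow_succ']
      rfl
  set q := ‖PP π E f‖ ^ 2 with hq
  have hq0 : 0 ≤ q := sq_nonneg _
  have hu : ∀ m, ip (A^[m] x) x ≤ q ^ m * ‖om π v x‖ ^ 2 := by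
    intro m
    refine (om_pos π v hv hpos _ _ (hAx m).1 hx).trans ?_
    rw [(hAx m).2]
    calc (⟪(Q ^ m) (om π v x), om π v x⟫).re ≤ ‖⟪(Q ^ m) (om π v x), om π v x⟫‖ :=
          Complex.re_le_norm _
      _ ≤ ‖(Q ^ m) (om π v x)‖ * ‖om π v x‖ := norm_inner_le_norm _ _
      _ ≤ (‖Q ^ m‖ * ‖om π v x‖) * ‖om π v x‖ :=
          mul_le_mul_of_nonneg_right ((Q ^ m).le_opNorm _) (norm_nonneg _)
      _ = ‖Q ^ m‖ * ‖om π v x‖ ^ 2 := by ring
      _ ≤ q ^ m * ‖om π v x‖ ^ 2 := by
          refine mul_le_mul_of_nonneg_right ?_ (sq_nonneg _)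
          rcases Nat.eq_zero_or_pos m with rfl | hm
          · rw [pow_zero, pow_zero]
            exact ContinuousLinearMap.norm_id_le
          · exact (norm_pow_le' _ hm).trans (pow_le_pow_left₀ (norm_nonneg _) hQ m)
  have h1 : ip (cv E f x) (cv E f x) = ip (A^[1] x) x := by
    rw [ip_cv, ip_comm]
    rfl
  rw [h1]
  rcases (ip_self_nonneg x).eq_or_lt with h0 | h0
  · have h2 := ip_cs (A^[1] x) x
    rw [← h0, mul_zero] at h2
    have h3 : ip (A^[1] x) x = 0 := by nlinarith [sq_nonneg (ip (A^[1] x) x)]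
    rw [h3, ← h0, mul_zero]
  · set u0 := ip x x with hu0
    have hdbl : ∀ j : ℕ, 0 ≤ ip (A^[2 ^ j] x) x ∧
        (ip (A^[1] x) x / u0) ^ (2 ^ j) ≤ ip (A^[2 ^ j] x) x / u0 := by
      intro j
      induction j with
      | zero =>
        refine ⟨?_, by simp⟩
        rw [pow_zero, ← h1]
        exact ip_self_nonneg _
      | succ j ih =>
        have h2 : ip (A^[2 ^ (j + 1)] x) x = ip (A^[2 ^ j] x) (A^[2 ^ j] x) := by
          rw [pow_succ, mul_two, Function.iterate_add_apply, hAm]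
        have h3 := ip_cs (A^[2 ^ j] x) x
        rw [← h2] at h3
        refine ⟨by rw [h2]; exact ip_self_nonneg _, ?_⟩
        have h4 : 0 ≤ (ip (A^[1] x) x / u0) ^ (2 ^ j) := by
          have h5 : 0 ≤ ip (A^[1] x) x := by rw [← h1]; exact ip_self_nonneg _
          positivity
        calc (ip (A^[1] x) x / u0) ^ (2 ^ (j + 1)) = ((ip (A^[1] x) x / u0) ^ (2 ^ j)) ^ 2 := by
              rw [← pow_mul, pow_succ]
          _ ≤ (ip (A^[2 ^ j] x) x / u0) ^ 2 := pow_le_pow_left₀ h4 ih.2 2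
          _ = ip (A^[2 ^ j] x) x ^ 2 / (u0 * u0) := by rw [div_pow, sq u0]
          _ ≤ (ip (A^[2 ^ (j + 1)] x) x * u0) / (u0 * u0) :=
              div_le_div_of_nonneg_right h3 (by positivity)
          _ = ip (A^[2 ^ (j + 1)] x) x / u0 := by field_simp
    set r := ip (A^[1] x) x / u0 with hr
    have hr' : ip (A^[1] x) x = r * u0 := by rw [hr]; field_simp
    rw [hr']
    refine mul_le_mul_of_nonneg_right ?_ h0.le
    by_contra hlt
    push Not at hlt
    set M := ‖om π v x‖ ^ 2 / u0 with hM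
    have hM0 : 0 ≤ M := by positivity
    have hb : ∀ j : ℕ, r ^ (2 ^ j) ≤ M * q ^ (2 ^ j) := by
      intro j
      refine (hdbl j).2.trans ?_
      rw [hM, div_mul_eq_mul_div]
      refine div_le_div_of_nonneg_right ?_ h0.le
      have := hu (2 ^ j)
      linarith
    rcases hq0.eq_or_lt with hz | hz
    · have h5 := hb 0
      rw [← hz] at h5 hlt
      norm_num at h5
      linarith
    · have h6 : 1 < r / q := (one_lt_div hz).2 hlt
      obtain ⟨n, hn⟩ := pow_unbounded_of_one_lt M h6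
      have h7 : (r / q) ^ n ≤ (r / q) ^ (2 ^ n) := pow_le_pow_right₀ h6.le Nat.lt_two_pow_self.le
      have h8 := hb n
      have h9 : r ^ (2 ^ n) / q ^ (2 ^ n) ≤ M := (div_le_iff₀ (by positivity)).2 h8
      rw [← div_pow] at h9
      linarith

end Pool.Agent.J4.H7.RDR
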