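import Pool.Agent.J4.H7.RDR.Pos

/-!
The norm of the operator of a function in a representation with Property RD, and convolution on
`ℓ²`.
-/

set_option autoImplicit false

namespace Pool.Agent.J4.H7.RDR

open scoped ComplexInnerProductSpace

variable {G : Type*} [Group G] {H : Type*} [NormedAddCommGroup H]
  [InnerProductSpace ℂ H] [CompleteSpace H]

theorem norm_le_of_inner (T : H →L[ℂ] H) (B : ℝ) (hB : 0 ≤ B)
    (key : ∀ v w : H, ‖v‖ = 1 → ‖w‖ = 1 → ‖⟪T v, w⟫‖ ≤ B) : ‖T‖ ≤ B := by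
  have key2 : ∀ v : H, ‖v‖ = 1 → ‖T v‖ ≤ B := by
    intro v hv
    rcases eq_or_ne (T v) 0 with h0 | h0
    · rw [h0, norm_zero]
      exact hB
    · have hp : 0 < ‖T v‖ := norm_pos_iff.2 h0
      have h := key v (((‖T v‖ : ℂ)⁻¹) • T v) hv (by
        rw [norm_smul, norm_inv, Complex.norm_real, norm_norm, inv_mul_cancel₀ hp.ne'])
      rw [inner_smul_right, inner_self_eq_norm_sq_to_K, norm_mul, norm_inv, Complex.norm_real,
        norm_norm, norm_pow] at h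
      have h7 : ‖((‖T v‖ : ℝ) : ℂ)‖ = ‖T v‖ := by
        rw [Complex.norm_real, norm_norm]
      have h8 : ‖T v‖⁻¹ * ‖T v‖ ^ 2 = ‖T v‖ := by
        field_simp
      calc ‖T v‖ = ‖T v‖⁻¹ * ‖T v‖ ^ 2 := h8.symm
        _ ≤ _ := by
          refine le_trans (le_of_eq ?_) h
          congr 2
          exact h7.symm
  refine ContinuousLinearMap.opNorm_le_bound _ hB fun v => ?_
  rcases eq_or_ne v 0 with rfl | h0
  · simp
  · have hp : 0 < ‖v‖ := norm_pos_iff.2 h0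
    have h := key2 (((‖v‖ : ℂ)⁻¹) • v) (by
      rw [norm_smul, norm_inv, Complex.norm_real, norm_norm, inv_mul_cancel₀ hp.ne'])
    rw [ContinuousLinearMap.map_smul, norm_smul, norm_inv, Complex.norm_real, norm_norm] at h
    rw [inv_mul_le_iff₀ hp] at h
    linarith

theorem norm_PP_le (π : G →* unitary (H →L[ℂ] H)) (E : Finset G) (f : G → ℝ) (hf : ∀ g, 0 ≤ f g)
    (wt : G → ℝ) (hwt : ∀ g, 0 < wt g) (C : ℝ) (hC0 : 0 ≤ C)
    (hC : ∀ v w : H, ‖v‖ = 1 → ‖w‖ = 1 → ∑ g ∈ E, ‖⟪op π g v, w⟫‖ ^ 2 * (wt g)⁻¹ ≤ C) :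
    ‖PP π E f‖ ^ 2 ≤ C * ∑ g ∈ E, f g ^ 2 * wt g := by
  have hS : 0 ≤ ∑ g ∈ E, f g ^ 2 * wt g :=
    Finset.sum_nonneg fun g _ => mul_nonneg (sq_nonneg _) (hwt g).le
  have h1 : ‖PP π E f‖ ≤ Real.sqrt (C * ∑ g ∈ E, f g ^ 2 * wt g) := by
    refine norm_le_of_inner _ _ (Real.sqrt_nonneg _) fun v w hv hw => ?_
    have h2 : ‖⟪PP π E f v, w⟫‖ ≤ ∑ g ∈ E, f g * ‖⟪op π g v, w⟫‖ := by
      have h3 : ⟪PP π E f v, w⟫ = ∑ g ∈ E, ⟪(f g : ℂ) • op π g v, w⟫ := by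
        rw [PP, ContinuousLinearMap.sum_apply, sum_inner]
        rfl
      rw [h3]
      refine (_root_.norm_sum_le _ _).trans (Finset.sum_le_sum fun g _ => ?_)
      rw [inner_smul_left, norm_mul, RCLike.norm_conj, Complex.norm_real, Real.norm_eq_abs,
        abs_of_nonneg (hf g)]
    refine h2.trans (Real.le_sqrt_of_sq_le ?_)
    have h4 := Finset.sum_mul_sq_le_sq_mul_sq E (fun g => ‖⟪op π g v, w⟫‖ * (Real.sqrt (wt g))⁻¹)
      (fun g => f g * Real.sqrt (wt g))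
    have h5 : ∀ g, ‖⟪op π g v, w⟫‖ * (Real.sqrt (wt g))⁻¹ * (f g * Real.sqrt (wt g)) =
        f g * ‖⟪op π g v, w⟫‖ := by
      intro g
      have := Real.sqrt_pos.2 (hwt g)
      field_simp
    have h6 : ∀ g, (‖⟪op π g v, w⟫‖ * (Real.sqrt (wt g))⁻¹) ^ 2 =
        ‖⟪op π g v, w⟫‖ ^ 2 * (wt g)⁻¹ := by
      intro g
      rw [mul_pow, inv_pow, Real.sq_sqrt (hwt g).le]
    have h7 : ∀ g, (f g * Real.sqrt (wt g)) ^ 2 = f g ^ 2 * wt g := by
      intro g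
      rw [mul_pow, Real.sq_sqrt (hwt g).le]
    simp only [h5, h6, h7] at h4
    exact h4.trans (mul_le_mul_of_nonneg_right (hC v w hv hw) hS)
  calc ‖PP π E f‖ ^ 2 ≤ Real.sqrt (C * ∑ g ∈ E, f g ^ 2 * wt g) ^ 2 :=
        pow_le_pow_left₀ (norm_nonneg _) h1 2
    _ = _ := Real.sq_sqrt (mul_nonneg hC0 hS)

/-- convolution of finitely supported functions with functions in `ℓ²` -/
theorem conv_bound (π : G →* unitary (H →L[ℂ] H))
    (hdom : ∀ (E : Finset G) (f : G → ℝ), (∀ g, 0 ≤ f g) → ∀ x : G →₀ ℝ, (∀ g, 0 ≤ x g) →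
      ip (cv E f x) (cv E f x) ≤ ‖PP π E f‖ ^ 2 * ip x x) (f : G →₀ ℂ) (ξ : G → ℂ)
    (hξ : Summable (fun x => ‖ξ x‖ ^ 2)) (F : Finset G) :
    ∑ x ∈ F, ‖∑ g ∈ f.support, f g * ξ (g⁻¹ * x)‖ ^ 2 ≤
      ‖PP π f.support (fun g => ‖f g‖)‖ ^ 2 * ∑' x, ‖ξ x‖ ^ 2 := by
  classical
  set E := f.support with hE
  let F' : Finset G := (E ×ˢ F).image (fun p => p.1⁻¹ * p.2)
  let y : G →₀ ℝ := Finsupp.onFinset F' (fun h => if h ∈ F' then ‖ξ h‖ else 0) (by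
    intro h hh
    by_contra h0
    exact hh (if_neg h0))
  have hy : ∀ h, y h = if h ∈ F' then ‖ξ h‖ else 0 := fun h => rfl
  have hy0 : ∀ h, 0 ≤ y h := by
    intro h
    rw [hy]
    split_ifs
    · exact norm_nonneg _
    · exact le_refl _
  have h1 : ∀ x ∈ F, ‖∑ g ∈ E, f g * ξ (g⁻¹ * x)‖ ≤ cv E (fun g => ‖f g‖) y x := by
    intro x hx
    rw [cv_apply]
    refine (_root_.norm_sum_le _ _).trans (le_of_eq (Finset.sum_congr rfl fun g hg => ?_))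
    rw [norm_mul, hy, if_pos]
    exact Finset.mem_image.2 ⟨(g, x), Finset.mem_product.2 ⟨hg, hx⟩, rfl⟩
  have h2 : ∑ x ∈ F, ‖∑ g ∈ E, f g * ξ (g⁻¹ * x)‖ ^ 2 ≤
      ip (cv E (fun g => ‖f g‖) y) (cv E (fun g => ‖f g‖) y) := by
    rw [ip_eq _ _ (F ∪ (cv E (fun g => ‖f g‖) y).support) Finset.subset_union_right]
    refine le_trans ?_ (Finset.sum_le_sum_of_subset_of_nonneg Finset.subset_union_left
      fun x _ _ => mul_self_nonneg _)
    refine Finset.sum_le_sum fun x hx => ?_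
    rw [← sq]
    exact pow_le_pow_left₀ (norm_nonneg _) (h1 x hx) 2
  have h3 := hdom E (fun g => ‖f g‖) (fun g => norm_nonneg _) y hy0
  have h4 : ip y y ≤ ∑' x, ‖ξ x‖ ^ 2 := by
    rw [ip_eq y y F' Finsupp.support_onFinset_subset]
    refine le_trans (le_of_eq ?_) (hξ.sum_le_tsum F' fun x _ => sq_nonneg _)
    refine Finset.sum_congr rfl fun h hh => ?_
    rw [hy, if_pos hh, sq]
  exact h2.trans (h3.trans (mul_le_mul_of_nonneg_left h4 (sq_nonneg _)))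

end Pool.Agent.J4.H7.RDR
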