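import Pool.Agent.J4.H7.RDR.Op

/-!
Unitary representations of finite groups: matrix coefficients of an irreducible subrepresentation.
-/

set_option autoImplicit false

namespace Pool.Agent.J4.H7.RDR

open scoped ComplexInnerProductSpace

variable {G : Type*} [Group G] {H : Type*} [NormedAddCommGroup H]
  [InnerProductSpace ℂ H] [CompleteSpace H]

theorem op_inv_op (ρ : G →* unitary (H →L[ℂ] H)) (h : G) (x : H) : op ρ h⁻¹ (op ρ h x) = x := by
  have h1 : op ρ h⁻¹ * op ρ h = 1 := by rw [← op_mul, inv_mul_cancel, op_one]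
  exact congrArg (fun A : H →L[ℂ] H => A x) h1

theorem inner_op_op (ρ : G →* unitary (H →L[ℂ] H)) (h : G) (x y : H) :
    ⟪op ρ h x, op ρ h y⟫ = ⟪x, y⟫ := by
  rw [← ContinuousLinearMap.adjoint_inner_right, ← ContinuousLinearMap.star_eq_adjoint, star_op,
    op_inv_op]

variable [Fintype G]

/-- the operator `∑ |g v⟩⟨g v'|` -/
noncomputable def TT (ρ : G →* unitary (H →L[ℂ] H)) (v v' : H) : H →ₗ[ℂ] H :=
  ∑ g, ((innerSL ℂ (op ρ g v')).toLinearMap).smulRight (op ρ g v)

theorem TT_apply (ρ : G →* unitary (H →L[ℂ] H)) (v v' x : H) :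
    TT ρ v v' x = ∑ g, ⟪op ρ g v', x⟫ • op ρ g v := by
  simp [TT, LinearMap.sum_apply]

theorem TT_comm (ρ : G →* unitary (H →L[ℂ] H)) (v v' x : H) (h : G) :
    TT ρ v v' (op ρ h x) = op ρ h (TT ρ v v' x) := by
  rw [TT_apply, TT_apply, map_sum]
  rw [← Equiv.sum_comp (Equiv.mulLeft h)]
  refine Finset.sum_congr rfl fun g _ => ?_
  rw [Equiv.coe_mulLeft, op_mul, map_smul]
  change ⟪op ρ h (op ρ g v'), op ρ h x⟫ • op ρ h (op ρ g v) = _
  rw [inner_op_op]

/-- a minimal invariant subspace -/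
theorem exists_min [Nontrivial H] (ρ : G →* unitary (H →L[ℂ] H)) :
    ∃ W : Submodule ℂ H, FiniteDimensional ℂ W ∧ (∀ g, ∀ x ∈ W, op ρ g x ∈ W) ∧ W ≠ ⊥ ∧
      ∀ W' ≤ W, (∀ g, ∀ x ∈ W', op ρ g x ∈ W') → W' ≠ ⊥ → W' = W := by
  classical
  have h0 : ∃ k : ℕ, ∃ W : Submodule ℂ H, FiniteDimensional ℂ W ∧
      (∀ g, ∀ x ∈ W, op ρ g x ∈ W) ∧ W ≠ ⊥ ∧ Module.finrank ℂ W = k := by
    obtain ⟨v, hv⟩ := exists_ne (0 : H)
    refine ⟨_, Submodule.span ℂ (Set.range fun g => op ρ g v),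
      FiniteDimensional.span_of_finite ℂ (Set.finite_range _), ?_, ?_, rfl⟩
    · intro g x hx
      have h1 : Submodule.span ℂ (Set.range fun g => op ρ g v) ≤
          (Submodule.span ℂ (Set.range fun g => op ρ g v)).comap (op ρ g).toLinearMap := by
        rw [Submodule.span_le]
        rintro _ ⟨h, rfl⟩
        refine Submodule.subset_span ⟨g * h, ?_⟩
        change op ρ (g * h) v = op ρ g (op ρ h v)
        rw [op_mul]
        rfl
      exact h1 hx
    · intro h
      apply hv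
      have h1 : v ∈ Submodule.span ℂ (Set.range fun g => op ρ g v) :=
        Submodule.subset_span ⟨1, by simp [op_one]⟩
      rw [h] at h1
      exact (Submodule.mem_bot ℂ).1 h1
  obtain ⟨W, hfd, hinv, hne, hk⟩ := Nat.find_spec h0
  refine ⟨W, hfd, hinv, hne, fun W' hle hinv' hne' => ?_⟩
  have hfd' : FiniteDimensional ℂ W' := Submodule.finiteDimensional_of_le hle
  have h1 : Nat.find h0 ≤ Module.finrank ℂ W' := Nat.find_min' h0 ⟨W', hfd', hinv', hne', rfl⟩
  rw [← hk] at h1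
  exact Submodule.eq_of_le_of_finrank_le hle h1

/-- Schur's lemma -/
theorem schur (ρ : G →* unitary (H →L[ℂ] H)) (W : Submodule ℂ H) [FiniteDimensional ℂ W]
    (hinv : ∀ g, ∀ x ∈ W, op ρ g x ∈ W) (hne : W ≠ ⊥)
    (hmin : ∀ W' ≤ W, (∀ g, ∀ x ∈ W', op ρ g x ∈ W') → W' ≠ ⊥ → W' = W) (v v' : H)
    (hv : v ∈ W) : ∃ μ : ℂ, ∀ x ∈ W, TT ρ v v' x = μ • x := by
  have hmem : ∀ x ∈ W, TT ρ v v' x ∈ W := by
    intro x _
    rw [TT_apply]
    exact Submodule.sum_mem _ fun g _ => Submodule.smul_mem _ _ (hinv g v hv)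
  haveI : Nontrivial W := (Submodule.nontrivial_iff_ne_bot).2 hne
  obtain ⟨μ, hμ⟩ := Module.End.exists_eigenvalue ((TT ρ v v').restrict hmem)
  obtain ⟨u, hu⟩ := hμ.exists_hasEigenvector
  refine ⟨μ, ?_⟩
  have h1 : W ⊓ LinearMap.ker (TT ρ v v' - μ • LinearMap.id) = W := by
    refine hmin _ inf_le_left ?_ ?_
    · intro g x hx
      rw [Submodule.mem_inf, LinearMap.mem_ker] at hx ⊢
      refine ⟨hinv g x hx.1, ?_⟩
      have h2 : TT ρ v v' x - μ • x = 0 := hx.2
      change TT ρ v v' (op ρ g x) - μ • op ρ g x = 0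
      rw [TT_comm, sub_eq_zero.1 h2, map_smul, sub_self]
    · intro h2
      have h3 : (u : H) ∈ W ⊓ LinearMap.ker (TT ρ v v' - μ • LinearMap.id) := by
        rw [Submodule.mem_inf, LinearMap.mem_ker]
        refine ⟨u.2, ?_⟩
        have h4 := congrArg Subtype.val hu.apply_eq_smul
        change TT ρ v v' (u : H) - μ • (u : H) = 0
        rw [sub_eq_zero]
        exact h4
      rw [h2, Submodule.mem_bot] at h3
      exact hu.2 (Subtype.ext h3)
  intro x hx
  rw [← h1, Submodule.mem_inf, LinearMap.mem_ker] at hx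
  exact sub_eq_zero.1 hx.2

/-- Schur's orthogonality -/
theorem orth (ρ : G →* unitary (H →L[ℂ] H)) (W : Submodule ℂ H) [FiniteDimensional ℂ W]
    (hinv : ∀ g, ∀ x ∈ W, op ρ g x ∈ W) (hne : W ≠ ⊥)
    (hmin : ∀ W' ≤ W, (∀ g, ∀ x ∈ W', op ρ g x ∈ W') → W' ≠ ⊥ → W' = W) (v v' x y : H)
    (hv : v ∈ W) (hv' : v' ∈ W) (hx : x ∈ W) :
    (Module.finrank ℂ W : ℂ) * ∑ g, ⟪op ρ g v', x⟫ * ⟪y, op ρ g v⟫ =
      Fintype.card G * (⟪v', v⟫ * ⟪y, x⟫) := by
  obtain ⟨μ, hμ⟩ := schur ρ W hinv hne hmin v v' hv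
  have h1 : ∑ g, ⟪op ρ g v', x⟫ * ⟪y, op ρ g v⟫ = μ * ⟪y, x⟫ := by
    have h2 : ⟪y, TT ρ v v' x⟫ = μ * ⟪y, x⟫ := by rw [hμ x hx, inner_smul_right]
    rw [← h2, TT_apply, inner_sum]
    refine Finset.sum_congr rfl fun g _ => ?_
    rw [inner_smul_right]
  let b := stdOrthonormalBasis ℂ W
  have h3 : (Module.finrank ℂ W : ℂ) * μ = Fintype.card G * ⟪v', v⟫ := by
    have h4 : ∀ i, ⟪(b i : H), TT ρ v v' (b i : H)⟫ = μ := by
      intro i
      rw [hμ _ (b i).2, inner_smul_right]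
      have h5 : ⟪(b i : H), (b i : H)⟫ = 1 := by
        rw [← Submodule.coe_inner]
        exact (orthonormal_iff_ite.1 b.orthonormal i i).trans (by simp)
      rw [h5, mul_one]
    calc (Module.finrank ℂ W : ℂ) * μ = ∑ i : Fin (Module.finrank ℂ W), μ := by
          rw [Finset.sum_const, Finset.card_univ, Fintype.card_fin, nsmul_eq_mul]
      _ = ∑ i, ⟪(b i : H), TT ρ v v' (b i : H)⟫ := Finset.sum_congr rfl fun i _ => (h4 i).symm
      _ = ∑ i, ∑ g, ⟪op ρ g v', (b i : H)⟫ * ⟪(b i : H), op ρ g v⟫ := by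
          refine Finset.sum_congr rfl fun i _ => ?_
          rw [TT_apply, inner_sum]
          refine Finset.sum_congr rfl fun g _ => ?_
          rw [inner_smul_right]
      _ = ∑ g, ∑ i, ⟪op ρ g v', (b i : H)⟫ * ⟪(b i : H), op ρ g v⟫ := Finset.sum_comm
      _ = ∑ g : G, ⟪v', v⟫ := by
          refine Finset.sum_congr rfl fun g _ => ?_
          have h6 := b.sum_inner_mul_inner (⟨op ρ g v', hinv g v' hv'⟩ : W) ⟨op ρ g v, hinv g v hv⟩
          simp only [Submodule.coe_inner] at h6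
          rw [h6, inner_op_op]
      _ = Fintype.card G * ⟪v', v⟫ := by
          rw [Finset.sum_const, Finset.card_univ, nsmul_eq_mul]
  rw [h1, ← mul_assoc, h3, mul_assoc]

/-- the order of a finite group is at most the square of the bound for the sums of squares of
coefficients -/
theorem fin_le [Nontrivial H] (ρ : G →* unitary (H →L[ℂ] H)) (B : ℝ)
    (hB : ∀ v w : H, ‖v‖ = 1 → ‖w‖ = 1 → ∑ g, ‖⟪op ρ g v, w⟫‖ ^ 2 ≤ B) :
    (Fintype.card G : ℝ) ≤ B ^ 2 := by
  classical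
  obtain ⟨W, hfd, hinv, hne, hmin⟩ := exists_min ρ
  set k := Module.finrank ℂ W with hk
  haveI : Nontrivial W := (Submodule.nontrivial_iff_ne_bot).2 hne
  have hk0 : 0 < k := Module.finrank_pos
  have hG0 : 0 < Fintype.card G := Fintype.card_pos
  let b := stdOrthonormalBasis ℂ W
  have hb : ∀ i j, ⟪(b i : H), (b j : H)⟫ = if i = j then 1 else 0 := by
    intro i j
    rw [← Submodule.coe_inner]
    exact orthonormal_iff_ite.1 b.orthonormal i j
  -- `k ^ 2 ≤ card G`
  have h1 : k * k ≤ Fintype.card G := by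
    let Φ : (Fin k → Fin k → ℂ) →ₗ[ℂ] (G → ℂ) :=
      { toFun := fun A g => ∑ i, ∑ j, A i j * ⟪(b j : H), op ρ g (b i : H)⟫
        map_add' := by
          intro A A'
          funext g
          simp only [Pi.add_apply, add_mul, Finset.sum_add_distrib]
        map_smul' := by
          intro c A
          funext g
          simp only [Pi.smul_apply, smul_eq_mul, RingHom.id_apply, Finset.mul_sum, mul_assoc] }
    have hΦ : Function.Injective Φ := by
      rw [← LinearMap.ker_eq_bot, LinearMap.ker_eq_bot']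
      intro A hA
      funext m l
      have h2 : ∀ g, ∑ i, ∑ j, A i j * ⟪(b j : H), op ρ g (b i : H)⟫ = 0 := fun g => congrFun hA g
      have h3 : (k : ℂ) * ∑ g, ⟪op ρ g (b m : H), (b l : H)⟫ *
          ∑ i, ∑ j, A i j * ⟪(b j : H), op ρ g (b i : H)⟫ = Fintype.card G * A m l := by
        calc (k : ℂ) * ∑ g, ⟪op ρ g (b m : H), (b l : H)⟫ *
              ∑ i, ∑ j, A i j * ⟪(b j : H), op ρ g (b i : H)⟫ =
            ∑ i, ∑ j, A i j * ((k : ℂ) * ∑ g, ⟪op ρ g (b m : H), (b l : H)⟫ *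
              ⟪(b j : H), op ρ g (b i : H)⟫) := by
              simp only [Finset.mul_sum]
              rw [Finset.sum_comm]
              refine Finset.sum_congr rfl fun i _ => ?_
              rw [Finset.sum_comm]
              refine Finset.sum_congr rfl fun j _ => ?_
              refine Finset.sum_congr rfl fun g _ => ?_
              ring
          _ = ∑ i, ∑ j, A i j * (Fintype.card G * ((if m = i then 1 else 0) *
              (if j = l then 1 else 0))) := by
              refine Finset.sum_congr rfl fun i _ => Finset.sum_congr rfl fun j _ => ?_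
              rw [orth ρ W hinv hne hmin (b i : H) (b m : H) (b l : H) (b j : H) (b i).2 (b m).2
                (b l).2, hb, hb]
          _ = Fintype.card G * A m l := by
              simp [mul_comm]
      simp only [h2, mul_zero, Finset.sum_const_zero] at h3
      have h4 : (Fintype.card G : ℂ) ≠ 0 := by exact_mod_cast hG0.ne'
      exact ((mul_eq_zero.1 h3.symm).resolve_left h4)
    have h5 := LinearMap.finrank_le_finrank_of_injective hΦ
    simpa [Module.finrank_pi_fintype] using h5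
  -- one coefficient
  have h6 : (k : ℝ) * B ≥ Fintype.card G := by
    let i₀ : Fin k := ⟨0, hk0⟩
    have hn : ‖(b i₀ : H)‖ = 1 := b.orthonormal.1 i₀
    have h9 := hB (b i₀ : H) (b i₀ : H) hn hn
    have h10 := orth ρ W hinv hne hmin (b i₀ : H) (b i₀ : H) (b i₀ : H) (b i₀ : H) (b i₀).2
      (b i₀).2 (b i₀).2
    rw [hb, if_pos rfl, mul_one, mul_one] at h10
    have h11 : ∀ g, ⟪op ρ g (b i₀ : H), (b i₀ : H)⟫ * ⟪(b i₀ : H), op ρ g (b i₀ : H)⟫ =
        ((‖⟪op ρ g (b i₀ : H), (b i₀ : H)⟫‖ ^ 2 : ℝ) : ℂ) := by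
      intro g
      rw [← inner_conj_symm (b i₀ : H) (op ρ g (b i₀ : H)), Complex.mul_conj,
        Complex.normSq_eq_norm_sq]
    simp only [h11] at h10
    have h12 : (k : ℝ) * ∑ g, ‖⟪op ρ g (b i₀ : H), (b i₀ : H)⟫‖ ^ 2 = Fintype.card G := by
      exact_mod_cast h10
    rw [ge_iff_le, ← h12]
    exact mul_le_mul_of_nonneg_left h9 (Nat.cast_nonneg _)
  have hkr : (0 : ℝ) < k := by exact_mod_cast hk0
  have hGr : (0 : ℝ) < Fintype.card G := by exact_mod_cast hG0
  have h13 : ((k : ℝ) * k) ≤ Fintype.card G := by exact_mod_cast h1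
  have h14 : (0 : ℝ) < B := by
    by_contra hneg
    push Not at hneg
    nlinarith
  have h15 : (Fintype.card G : ℝ) ^ 2 ≤ (k * B) ^ 2 := pow_le_pow_left₀ hGr.le h6 2
  have h16 : ((k : ℝ) * B) ^ 2 ≤ Fintype.card G * B ^ 2 := by
    rw [mul_pow, sq (k : ℝ)]
    exact mul_le_mul_of_nonneg_right h13 (sq_nonneg B)
  have h17 : (Fintype.card G : ℝ) * Fintype.card G ≤ Fintype.card G * B ^ 2 := by
    rw [← sq]
    exact h15.trans h16
  exact le_of_mul_le_mul_left h17 hGr

end Pool.Agent.J4.H7.RDR
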