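import Pool.Agent.J4.H7.RDR.Word

/-!
Groups which contain their own square: many commuting elements of small length.
-/

set_option autoImplicit false

namespace Pool.Agent.J4.H7.RDR

/-- the commuting sets `E (k + 1) = φ (E k × E k)` -/
theorem sq_sets {K : Type*} [Group K] (φ : K × K →* K) (hφ : Function.Injective φ) (ℓ : K → ℕ)
    (c : ℕ) (hc : ∀ x y, ℓ (φ (x, y)) ≤ c * (ℓ x + ℓ y)) (g : K) (hg : g ≠ 1) (k : ℕ) :
    ∃ E : Finset K, E.card = 2 ^ 2 ^ k ∧ (∀ x ∈ E, ∀ y ∈ E, Commute x y) ∧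
      (∀ x ∈ E, ℓ x ≤ (2 * c) ^ k * (ℓ 1 + ℓ g)) := by
  classical
  induction k with
  | zero =>
    refine ⟨{1, g}, ?_, ?_, ?_⟩
    · rw [Finset.card_pair (Ne.symm hg)]
      norm_num
    · intro x hx y hy
      simp only [Finset.mem_insert, Finset.mem_singleton] at hx hy
      rcases hx with rfl | rfl
      · exact Commute.one_left y
      · rcases hy with rfl | rfl
        · exact Commute.one_right _
        · exact Commute.refl _
    · intro x hx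
      simp only [Finset.mem_insert, Finset.mem_singleton] at hx
      rcases hx with rfl | rfl <;> simp
  | succ k ih =>
    obtain ⟨E, h1, h2, h3⟩ := ih
    refine ⟨(E ×ˢ E).image φ, ?_, ?_, ?_⟩
    · rw [Finset.card_image_of_injective _ hφ, Finset.card_product, h1, ← pow_add, pow_succ 2 k,
        mul_two]
    · intro x hx y hy
      obtain ⟨⟨a, b⟩, hab, rfl⟩ := Finset.mem_image.1 hx
      obtain ⟨⟨a', b'⟩, hab', rfl⟩ := Finset.mem_image.1 hy
      rw [Finset.mem_product] at hab hab'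
      have h4 : Commute (a, b) (a', b') := Prod.ext (h2 a hab.1 a' hab'.1) (h2 b hab.2 b' hab'.2)
      exact h4.map φ
    · intro x hx
      obtain ⟨⟨a, b⟩, hab, rfl⟩ := Finset.mem_image.1 hx
      rw [Finset.mem_product] at hab
      calc ℓ (φ (a, b)) ≤ c * (ℓ a + ℓ b) := hc a b
        _ ≤ c * ((2 * c) ^ k * (ℓ 1 + ℓ g) + (2 * c) ^ k * (ℓ 1 + ℓ g)) :=
          Nat.mul_le_mul_left _ (Nat.add_le_add (h3 a hab.1) (h3 b hab.2))
        _ = (2 * c) ^ (k + 1) * (ℓ 1 + ℓ g) := by ring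

/-- homomorphisms are Lipschitz for the word length -/
theorem hom_lip {K G : Type*} [Group K] [Group G] (T : Finset K) (hinv : ∀ x ∈ T, x⁻¹ ∈ T)
    (hgen : Subgroup.closure (T : Set K) = ⊤) (L : G → ℕ) (h1 : L 1 = 0)
    (hmul : ∀ g h, L (g * h) ≤ L g + L h) (f : K →* G) : ∃ c : ℕ, ∀ x, L (f x) ≤ c * wl T x := by
  refine ⟨T.sup (fun t => L (f t)), fun x => ?_⟩
  obtain ⟨l, hl1, hl2, hl3⟩ := exists_list T hinv hgen x
  rw [← hl1, ← hl3]
  clear hl1 hl3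
  induction l with
  | nil => simp [h1]
  | cons a l ih =>
    rw [List.prod_cons, map_mul, List.length_cons]
    have h2 := hmul (f a) (f l.prod)
    have h3 : L (f a) ≤ T.sup (fun t => L (f t)) :=
      Finset.le_sup (f := fun t => L (f t)) (hl2 a (by simp))
    have h4 := ih (fun x hx => hl2 x (by simp [hx]))
    calc L (f a * f l.prod) ≤ L (f a) + L (f l.prod) := h2
      _ ≤ T.sup (fun t => L (f t)) + T.sup (fun t => L (f t)) * l.length := Nat.add_le_add h3 h4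
      _ = _ := by ring

/-- a double exponential is not bounded by a power of an exponential -/
theorem dbl (a m : ℕ) : ∃ k : ℕ, ((2 ^ m) ^ (k + 1)) ^ a < 2 ^ 2 ^ k := by
  refine ⟨2 * (2 * a * m), ?_⟩
  set t := 2 * a * m with ht
  rw [← pow_mul, ← pow_mul]
  refine Nat.pow_lt_pow_right (by norm_num) ?_
  have h1 : t < 2 ^ t := Nat.lt_two_pow_self
  calc m * ((2 * t + 1) * a) ≤ t * (t + 1) := by
        rw [ht]
        nlinarith [Nat.zero_le (a * m)]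
    _ ≤ t * 2 ^ t := Nat.mul_le_mul_left _ h1
    _ < 2 ^ t * 2 ^ t := Nat.mul_lt_mul_of_pos_right h1 (by positivity)
    _ = 2 ^ (2 * t) := by rw [two_mul, pow_add]

/-- the contradiction -/
theorem sq_trivial {K Γ : Type*} [Group K] [Group Γ] (φ : K × K →* K) (hφ : Function.Injective φ)
    (ℓ : K → ℕ) (c : ℕ) (hc : ∀ x y, ℓ (φ (x, y)) ≤ c * (ℓ x + ℓ y)) (f : K →* Γ)
    (hf : Function.Injective f) (L : Γ → ℕ) (c' : ℕ) (hc' : ∀ x, L (f x) ≤ c' * ℓ x) (a : ℕ)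
    (hab : ∀ n : ℕ, ∀ E : Finset Γ, (∀ x ∈ E, ∀ y ∈ E, Commute x y) → (∀ x ∈ E, L x ≤ n) →
      E.card ≤ (n + 2) ^ a) (g : K) : g = 1 := by
  classical
  by_contra hg
  obtain ⟨m, hm⟩ : ∃ m : ℕ, 2 * c + c' * (ℓ 1 + ℓ g) + 2 ≤ 2 ^ m :=
    ⟨_, Nat.lt_two_pow_self.le⟩
  obtain ⟨k, hk⟩ := dbl a m
  obtain ⟨E, h1, h2, h3⟩ := sq_sets φ hφ ℓ c hc g hg k
  have h4 := hab (c' * ((2 * c) ^ k * (ℓ 1 + ℓ g))) (E.image f) ?_ ?_
  · rw [Finset.card_image_of_injective _ hf, h1] at h4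
    have h5 : c' * ((2 * c) ^ k * (ℓ 1 + ℓ g)) + 2 ≤ (2 ^ m) ^ (k + 1) := by
      have h6 : (2 * c) ^ k ≤ (2 ^ m) ^ k := Nat.pow_le_pow_left (by omega) k
      have h7 : 1 ≤ (2 ^ m) ^ k := Nat.one_le_pow _ _ (by positivity)
      calc c' * ((2 * c) ^ k * (ℓ 1 + ℓ g)) + 2 = (2 * c) ^ k * (c' * (ℓ 1 + ℓ g)) + 2 * 1 := by
            ring
        _ ≤ (2 ^ m) ^ k * (c' * (ℓ 1 + ℓ g)) + 2 * (2 ^ m) ^ k :=
            Nat.add_le_add (Nat.mul_le_mul_right _ h6) (Nat.mul_le_mul_left _ h7)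
        _ = (2 ^ m) ^ k * (c' * (ℓ 1 + ℓ g) + 2) := by ring
        _ ≤ (2 ^ m) ^ k * 2 ^ m := Nat.mul_le_mul_left _ (by omega)
        _ = (2 ^ m) ^ (k + 1) := by rw [pow_succ]
    have h8 := Nat.pow_le_pow_left h5 a
    omega
  · intro x hx y hy
    obtain ⟨x', hx', rfl⟩ := Finset.mem_image.1 hx
    obtain ⟨y', hy', rfl⟩ := Finset.mem_image.1 hy
    exact (h2 x' hx' y' hy').map f
  · intro x hx
    obtain ⟨x', hx', rfl⟩ := Finset.mem_image.1 hx
    exact (hc' x').trans (Nat.mul_le_mul_left _ (h3 x' hx'))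

/-- finitely generated groups -/
theorem sq_fg {K Γ : Type*} [Group K] [Group Γ] [hK : Group.FG K] (φ : K × K →* K)
    (hφ : Function.Injective φ) (f : K →* Γ) (hf : Function.Injective f) (L : Γ → ℕ) (hL : Len L)
    (a : ℕ)
    (hab : ∀ n : ℕ, ∀ E : Finset Γ, (∀ x ∈ E, ∀ y ∈ E, Commute x y) → (∀ x ∈ E, L x ≤ n) →
      E.card ≤ (n + 2) ^ a) (g : K) : g = 1 := by
  classical
  obtain ⟨T₀, hT₀⟩ := Group.fg_def.1 hK
  let T : Finset K := T₀ ∪ T₀.image (fun x => x⁻¹)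
  have hinv : ∀ x ∈ T, x⁻¹ ∈ T := by
    intro x hx
    simp only [T, Finset.mem_union, Finset.mem_image] at hx ⊢
    rcases hx with hx | ⟨y, hy, rfl⟩
    · exact Or.inr ⟨x, hx, rfl⟩
    · exact Or.inl (by simpa using hy)
  have hgen : Subgroup.closure (T : Set K) = ⊤ := by
    refine top_le_iff.1 (hT₀ ▸ Subgroup.closure_mono ?_)
    intro x hx
    simp only [T, Finset.coe_union, Set.mem_union]
    exact Or.inl hx
  have hT := len_wl T hinv hgen
  obtain ⟨c', hc'⟩ := hom_lip T hinv hgen L hL.one hL.mul f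
  obtain ⟨c₁, hc₁⟩ := hom_lip T hinv hgen (wl T) hT.one hT.mul (φ.comp (MonoidHom.inl K K))
  obtain ⟨c₂, hc₂⟩ := hom_lip T hinv hgen (wl T) hT.one hT.mul (φ.comp (MonoidHom.inr K K))
  refine sq_trivial φ hφ (wl T) (c₁ + c₂) (fun x y => ?_) f hf L c' hc' a hab g
  have h1 : φ (x, y) = φ (x, 1) * φ (1, y) := by
    rw [← map_mul]
    simp
  rw [h1]
  have h2 := hT.mul (φ (x, 1)) (φ (1, y))
  have h3 : wl T (φ (x, 1)) ≤ c₁ * wl T x := hc₁ x
  have h4 : wl T (φ (1, y)) ≤ c₂ * wl T y := hc₂ y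
  nlinarith [Nat.zero_le (c₂ * wl T x), Nat.zero_le (c₁ * wl T y)]

end Pool.Agent.J4.H7.RDR
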