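import Pool.Agent.J4.H7.RDR.Fin

/-!
Word length, virtually soluble subgroups.
-/

set_option autoImplicit false

namespace Pool.Agent.J4.H7.RDR

variable {Γ : Type*} [Group Γ]

/-- word length -/
noncomputable def wl (S : Finset Γ) (g : Γ) : ℕ :=
  sInf {n | ∃ l : List Γ, l.length = n ∧ (∀ x ∈ l, x ∈ S) ∧ l.prod = g}

theorem exists_list (S : Finset Γ) (hinv : ∀ x ∈ S, x⁻¹ ∈ S)
    (hgen : Subgroup.closure (S : Set Γ) = ⊤) (g : Γ) :
    ∃ l : List Γ, l.length = wl S g ∧ (∀ x ∈ l, x ∈ S) ∧ l.prod = g := by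
  have hne : {n | ∃ l : List Γ, l.length = n ∧ (∀ x ∈ l, x ∈ S) ∧ l.prod = g}.Nonempty := by
    have hg : g ∈ (Subgroup.closure (S : Set Γ)).toSubmonoid := by
      rw [hgen]
      exact Subgroup.mem_top g
    rw [Subgroup.closure_toSubmonoid] at hg
    obtain ⟨l, hl, hp⟩ := Submonoid.exists_list_of_mem_closure hg
    refine ⟨l.length, l, rfl, fun x hx => ?_, hp⟩
    rcases hl x hx with h | h
    · exact h
    · have := hinv _ (Set.mem_inv.1 h)
      rwa [inv_inv] at this
  exact Nat.sInf_mem hne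

theorem wl_le (S : Finset Γ) (l : List Γ) (hl : ∀ x ∈ l, x ∈ S) : wl S l.prod ≤ l.length :=
  Nat.sInf_le ⟨l, rfl, hl, rfl⟩

theorem len_wl (S : Finset Γ) (hinv : ∀ x ∈ S, x⁻¹ ∈ S)
    (hgen : Subgroup.closure (S : Set Γ) = ⊤) : Len (wl S) where
  one := by
    have := wl_le S [] (by simp)
    simpa using this
  inv := by
    have key : ∀ g, wl S g⁻¹ ≤ wl S g := by
      intro g
      obtain ⟨l, h1, h2, h3⟩ := exists_list S hinv hgen g
      have h4 := wl_le S (l.map (fun x => x⁻¹)).reverse (by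
        intro x hx
        rw [List.mem_reverse, List.mem_map] at hx
        obtain ⟨y, hy, rfl⟩ := hx
        exact hinv y (h2 y hy))
      rw [← List.prod_inv_reverse, h3, List.length_reverse, List.length_map, h1] at h4
      exact h4
    intro g
    refine le_antisymm (key g) ?_
    have := key g⁻¹
    rwa [inv_inv] at this
  mul := by
    intro g h
    obtain ⟨l, h1, h2, h3⟩ := exists_list S hinv hgen g
    obtain ⟨l', h1', h2', h3'⟩ := exists_list S hinv hgen h
    have h4 := wl_le S (l ++ l') (by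
      intro x hx
      rcases List.mem_append.1 hx with hx | hx
      · exact h2 x hx
      · exact h2' x hx)
    rw [List.prod_append, h3, h3', List.length_append, h1, h1'] at h4
    exact h4
  fin := by
    intro n
    have hf : {l : List S | l.length ≤ n}.Finite := List.finite_length_le S n
    refine (hf.image (fun l => (l.map Subtype.val).prod)).subset ?_
    intro g hg
    obtain ⟨l, h1, h2, h3⟩ := exists_list S hinv hgen g
    refine ⟨l.attach.map (fun x => ⟨x.1, h2 x.1 x.2⟩), ?_, ?_⟩
    · change (l.attach.map _).length ≤ n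
      rw [List.length_map, List.length_attach, h1]
      exact hg
    · simp only [List.map_map]
      have h4 : (l.attach.map (Subtype.val ∘ fun x : {x // x ∈ l} => (⟨x.1, h2 x.1 x.2⟩ : S))) =
          l.attach.map Subtype.val := rfl
      rw [h4, List.attach_map_subtype_val]
      exact h3

/-- subgroups of finite index -/
theorem card_virtual {L : Γ → ℕ} (hL : Len L) (A B : Subgroup Γ) (h0 : A.relIndex B ≠ 0)
    (n : ℕ) : (bal hL B n).card ≤ A.relIndex B * (bal hL A (2 * n)).card := by
  classical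
  haveI : (A.subgroupOf B).FiniteIndex := ⟨h0⟩
  haveI : Fintype (B ⧸ A.subgroupOf B) := Fintype.ofFinite _
  have hcard : (Finset.univ : Finset (B ⧸ A.subgroupOf B)).card = A.relIndex B := by
    rw [Finset.card_univ, ← Nat.card_eq_fintype_card]
    rfl
  let f : {x // x ∈ bal hL B n} → B ⧸ A.subgroupOf B := fun x =>
    QuotientGroup.mk ⟨x.1, ((mem_bal hL B n x.1).1 x.2).2⟩
  have h1 := Finset.card_le_mul_card_image_of_maps_to (s := (bal hL B n).attach)
    (t := Finset.univ) (f := f) (fun _ _ => Finset.mem_univ _) (bal hL A (2 * n)).card ?_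
  · rw [Finset.card_attach, hcard] at h1
    rw [mul_comm]
    exact h1
  · intro q _
    rcases Finset.eq_empty_or_nonempty ({a ∈ (bal hL B n).attach | f a = q}) with he | ⟨y, hy⟩
    · rw [he]
      simp
    · refine Finset.card_le_card_of_injOn (fun x => y.1⁻¹ * x.1) ?_ ?_
      · intro x hx
        have hx' := (Finset.mem_filter.1 hx).2
        have hy' := (Finset.mem_filter.1 hy).2
        have h2 : f y = f x := by rw [hx', hy']
        have h3 := QuotientGroup.eq.1 h2
        rw [Subgroup.mem_subgroupOf] at h3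
        simp only [Finset.mem_coe]
        rw [mem_bal]
        refine ⟨?_, by simpa using h3⟩
        have h4 := hL.mul y.1⁻¹ x.1
        rw [hL.inv] at h4
        have h5 := ((mem_bal hL B n y.1).1 y.2).1
        have h6 := ((mem_bal hL B n x.1).1 x.2).1
        omega
      · intro x _ x' _ h
        exact Subtype.ext (mul_left_cancel h)

theorem lg_two (n : ℕ) : lg (2 * n) ≤ 2 * lg n := by
  have h1 : lg (2 * n) ≤ lg n + 1 := by
    have h2 : 2 * n + 2 < 2 ^ (Nat.log 2 (n + 2) + 2) := by
      have h3 : n + 2 < 2 ^ (Nat.log 2 (n + 2) + 1) := lt_two_pow_lg n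
      rw [show Nat.log 2 (n + 2) + 2 = (Nat.log 2 (n + 2) + 1) + 1 by ring, pow_succ]
      omega
    have h3 : Nat.log 2 (2 * n + 2) < Nat.log 2 (n + 2) + 2 :=
      Nat.log_lt_of_lt_pow (by omega) h2
    unfold lg
    omega
  have := two_le_lg n
  omega

/-- the real form of the bound -/
theorem real_bound (c d n : ℕ) : ((2 ^ (c * lg n ^ d) : ℕ) : ℝ) ≤
    Real.exp ((c * (2 / Real.log 2) ^ d) * Real.log (n + 2) ^ d) := by
  have hlog2 : 0 < Real.log 2 := Real.log_pos (by norm_num)
  have h1 : (lg n : ℝ) ≤ 2 / Real.log 2 * Real.log (n + 2) := by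
    have h2 : (2 : ℝ) ^ (Nat.log 2 (n + 2)) ≤ (n : ℝ) + 2 := by
      have := Nat.pow_log_le_self 2 (show n + 2 ≠ 0 by omega)
      exact_mod_cast this
    have h3 : (Nat.log 2 (n + 2) : ℝ) * Real.log 2 ≤ Real.log (n + 2) := by
      rw [← Real.log_pow]
      exact Real.log_le_log (by positivity) h2
    have h4 : (1 : ℝ) ≤ Nat.log 2 (n + 2) := by
      have := two_le_lg n
      unfold lg at this
      exact_mod_cast (by omega : 1 ≤ Nat.log 2 (n + 2))
    have h5 : (lg n : ℝ) ≤ 2 * Nat.log 2 (n + 2) := by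
      unfold lg
      push_cast
      linarith
    calc (lg n : ℝ) ≤ 2 * Nat.log 2 (n + 2) := h5
      _ = 2 / Real.log 2 * (Nat.log 2 (n + 2) * Real.log 2) := by field_simp
      _ ≤ _ := mul_le_mul_of_nonneg_left h3 (by positivity)
  have h6 : (lg n : ℝ) ^ d ≤ (2 / Real.log 2) ^ d * Real.log (n + 2) ^ d := by
    rw [← mul_pow]
    exact pow_le_pow_left₀ (Nat.cast_nonneg _) h1 d
  have h7 : ((2 ^ (c * lg n ^ d) : ℕ) : ℝ) = Real.exp ((c * lg n ^ d : ℕ) * Real.log 2) := by
    rw [Real.exp_nat_mul, Real.exp_log (by norm_num)]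
    push_cast
    rfl
  rw [h7, Real.exp_le_exp]
  have h8 : Real.log 2 ≤ 1 := by
    have := Real.log_two_lt_d9
    linarith
  push_cast
  calc (c : ℝ) * (lg n : ℝ) ^ d * Real.log 2 ≤ c * (lg n : ℝ) ^ d * 1 :=
        mul_le_mul_of_nonneg_left h8 (by positivity)
    _ = c * (lg n : ℝ) ^ d := mul_one _
    _ ≤ c * ((2 / Real.log 2) ^ d * Real.log (n + 2) ^ d) :=
        mul_le_mul_of_nonneg_left h6 (Nat.cast_nonneg _)
    _ = _ := by ring

end Pool.Agent.J4.H7.RDR
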